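import Pool.Agent.KS6_46.RF.Basic

/-!
# Amalgamation of many copies of one condition
-/

set_option autoImplicit false

namespace Pool.Agent.KS6_46.RF

open Classical

/-- values on the support of `X` with prescribed sum over `X` which are otherwise independent -/
theorem exists_cross {Y : Type} (X : Gr Y) (u : BB) (M : ℕ) (hu : ∀ m, M ≤ m → u m = 0)
    (hX : X = 0 → u = 0) : ∃ c : Y → BB, ev c X = u ∧ ∀ z : Gr Y, z.support ⊆ X.support →
      (∀ m, M ≤ m → ev c z m = 0) → z = 0 ∨ z = X := by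
  by_cases hX0 : X = 0
  · refine ⟨fun _ => 0, by rw [hX hX0, hX0, map_zero], fun z hz _ => Or.inl ?_⟩
    rw [hX0, Finsupp.support_zero, Finset.subset_empty] at hz
    exact Finsupp.support_eq_empty.1 hz
  · obtain ⟨t0, ht0⟩ := Finsupp.support_nonempty_iff.2 hX0
    let enc : Y → ℕ := fun t => if h : t ∈ X.support then (X.support.equivFin ⟨t, h⟩).1 else 0
    have henc : ∀ t ∈ X.support, ∀ t' ∈ X.support, enc t = enc t' → t = t' := by
      intro t ht t' ht' h
      simp only [enc, dif_pos ht, dif_pos ht'] at h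
      have h1 := X.support.equivFin.injective (Fin.ext h)
      exact congrArg Subtype.val h1
    let f : Y → BB := fun t => Finsupp.single (M + enc t) 1
    let c : Y → BB := fun t => f t + if t = t0 then u + ev f X else 0
    have hc : ∀ z : Gr Y, t0 ∉ z.support → ev c z = ev f z := fun z hz =>
      ev_congr fun t ht => by
        have : t ≠ t0 := fun h => hz (h ▸ ht)
        simp only [c, if_neg this, add_zero]
    have hA : ∀ z : Gr Y, z.support ⊆ X.support → t0 ∉ z.support →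
        (∀ m, M ≤ m → ev c z m = 0) → z = 0 := by
      intro z hz h0 h
      by_contra hne
      obtain ⟨t, ht⟩ := Finsupp.support_nonempty_iff.2 hne
      have h1 := h (M + enc t) (Nat.le_add_right _ _)
      rw [hc z h0, ev_apply, Finset.sum_eq_single_of_mem t ht] at h1
      · simp [f] at h1
      · intro t' ht' hne'
        simp only [f]
        rw [Finsupp.single_eq_of_ne]
        intro h2
        exact hne' (henc t' (hz ht') t (hz ht) (by omega))
    have hsum : ev c X = u := by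
      rw [ev_eq_sum]
      simp only [c]
      rw [Finset.sum_add_distrib, Finset.sum_ite_eq' X.support t0, if_pos ht0, ← ev_eq_sum,
        add_left_comm, g_add_self, add_zero]
    refine ⟨c, hsum, fun z hz h => ?_⟩
    by_cases h0 : t0 ∈ z.support
    · right
      apply g_add_eq.1
      apply hA
      · intro t ht
        rcases Finset.mem_union.1 (Finsupp.support_add ht) with h' | h'
        · exact hz h'
        · exact h'
      · rw [Finsupp.notMem_support_iff, Finsupp.add_apply,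
          z2_ne.1 (Finsupp.mem_support_iff.1 h0), z2_ne.1 (Finsupp.mem_support_iff.1 ht0)]
        rfl
      · intro m hm
        rw [map_add, hsum, Finsupp.add_apply, h m hm, hu m hm, add_zero]
    · exact Or.inl (hA z hz h0 h)

variable {Ω : Type}

/-- the full condition of a given type -/
noncomputable def cnd {A B : Type} [Fintype A] [Fintype B] (e : A → Ω × ℕ) (σ : B → Sy Ω)
    (v : B → A → BB) (Q : Finset (B × Gr A × ℕ)) : Finset (Atom Ω) :=
  (Finset.univ.image fun u : B × A => (σ u.1, .inl (e u.2, v u.1 u.2))) ∪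
    Q.image fun u => (σ u.1, .inr (u.2.1.mapDomain e, u.2.2))

section Cnd

variable {A B : Type} [Fintype A] [Fintype B] {e : A → Ω × ℕ} {σ : B → Sy Ω}
  {v : B → A → BB} {Q : Finset (B × Gr A × ℕ)}

theorem mem_cnd_inl {g : Sy Ω} {t : Ω × ℕ} {β : BB} :
    (g, .inl (t, β)) ∈ cnd e σ v Q ↔ ∃ b a, g = σ b ∧ t = e a ∧ β = v b a := by
  simp only [cnd, Finset.mem_union, Finset.mem_image, Finset.mem_univ, true_and, Prod.mk.injEq,
    Sum.inl.injEq, reduceCtorEq, and_false, exists_false, or_false, Prod.exists]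
  constructor
  · rintro ⟨b, a, rfl, rfl, rfl⟩
    exact ⟨b, a, rfl, rfl, rfl⟩
  · rintro ⟨b, a, rfl, rfl, rfl⟩
    exact ⟨b, a, rfl, rfl, rfl⟩

theorem mem_cnd_inr {g : Sy Ω} {w : Gr (Ω × ℕ)} {n : ℕ} :
    (g, .inr (w, n)) ∈ cnd e σ v Q ↔ ∃ b w0, (b, w0, n) ∈ Q ∧ g = σ b ∧ w = w0.mapDomain e := by
  simp only [cnd, Finset.mem_union, Finset.mem_image, Finset.mem_univ, Prod.mk.injEq,
    Sum.inr.injEq, reduceCtorEq, and_false, exists_false, false_or, Prod.exists]
  constructor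
  · rintro ⟨b, w0, n', h, rfl, rfl, rfl⟩
    exact ⟨b, w0, h, rfl, rfl⟩
  · rintro ⟨b, w0, h, rfl, rfl⟩
    exact ⟨b, w0, n, h, rfl, rfl, rfl⟩

end Cnd

/-- the data for the amalgamation -/
structure Sys (Ω ι A B : Type) [LinearOrder Ω] [LinearOrder ι] [Fintype ι] [Fintype A]
    [Fintype B] where
  RA : Set A
  RB : Set B
  e : ι → A → Ω × ℕ
  σ : ι → B → Sy Ω
  v : B → A → BB
  Q : Finset (B × Gr A × ℕ)
  ψ : A → B
  e_inj : ∀ p, Function.Injective (e p)
  e_root : ∀ p q a, a ∈ RA → e p a = e q a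
  e_disj : ∀ p q a a', p ≠ q → e p a = e q a' → a ∈ RA
  σ_inj : ∀ p, Function.Injective (σ p)
  σ_root : ∀ p q b, b ∈ RB → σ p b = σ q b
  σ_disj : ∀ p q b b', p ≠ q → σ p b = σ q b' → b ∈ RB
  σ_psi : ∀ p a, σ p (ψ a) = .psi (e p a)
  σ_not : ∀ p b α, σ p b = .psi α → ∃ a, b = ψ a
  blk : ∀ p q a a', q < p → a ∉ RA → (e p a').1 < (e q a).1
  blkR : ∀ p a a', a ∉ RA → a' ∈ RA → (e p a').1 < (e p a).1
  good : ∀ p, Good (cnd (e p) (σ p) v Q)
  lev : ι → ℕ
  dep : Sy Ω → ℕ
  X : ι → Gr (Ω × ℕ)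
  lev_psi : ∀ p α, lev p ≤ dep (.psi α)
  dep_mono : ∀ g h, rk h < rk g → dep g ≤ dep h
  dep_lt : ∀ p b h, b ∈ RB → rk h < rk (σ p b) → dep (σ p b) + 1 ≤ dep h
  X_supp : ∀ p t, t ∈ (X p).support → ∃ q a, q < p ∧ lev q ≤ lev p ∧ a ∉ RA ∧ t = e q a
  absorb : ∀ p b m dat sym, b ∈ RB → σ p b = .phi m dat sym → ∀ z : Gr (Ω × ℕ),
    (∀ t ∈ z.support, ∃ q a, lev q ≤ dep (σ p b) ∧ t = e q a) →
      ∃ p', lev p' ≤ dep (σ p b) + 1 ∧
        ((∀ t ∈ z.support, ∃ a, t = e p' a) ∨ ∀ t ∈ (z + X p').support, ∃ a, t = e p' a)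
  only : ∀ p q (z : Gr (Ω × ℕ)), p ≠ q →
    ((∀ t ∈ z.support, ∃ a, t = e p a) ∨ ∀ t ∈ (z + X p).support, ∃ a, t = e p a) →
    ((∀ t ∈ z.support, ∃ a, t = e q a) ∨ ∀ t ∈ (z + X q).support, ∃ a, t = e q a) →
    ∀ t ∈ z.support, ∃ a ∈ RA, t = e p a

namespace Sys

variable {ι A B : Type} [LinearOrder Ω] [LinearOrder ι] [Fintype ι] [Fintype A] [Fintype B]
  (S : Sys Ω ι A B)

/-- supported on the `p`-th copy -/
def On (p : ι) (z : Gr (Ω × ℕ)) : Prop := ∀ t ∈ z.support, ∃ a, t = S.e p a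

/-- supported on the `p`-th copy up to the absorbed element -/
def In (p : ι) (z : Gr (Ω × ℕ)) : Prop := S.On p z ∨ S.On p (z + S.X p)

variable {S}

theorem On.add {p : ι} {z z' : Gr (Ω × ℕ)} (h : S.On p z) (h' : S.On p z') :
    S.On p (z + z') := by
  intro t ht
  rcases Finset.mem_union.1 (Finsupp.support_add ht) with h1 | h1
  · exact h t h1
  · exact h' t h1

theorem In.add {p : ι} {z z' : Gr (Ω × ℕ)} (h : S.In p z) (h' : S.On p z') :
    S.In p (z + z') := by
  rcases h with h | h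
  · exact Or.inl (h.add h')
  · refine Or.inr ?_
    rw [add_right_comm]
    exact h.add h'

theorem on_bs (p : ι) (a : A) : S.On p (bs (S.e p a)) := by
  intro t ht
  have := Finsupp.support_single_subset ht
  rw [Finset.mem_singleton] at this
  exact ⟨a, this⟩

theorem on_zero (p : ι) : S.On p 0 := by
  intro t ht
  simp at ht

/-- a position determines the element of `A` -/
theorem e_pos {p q : ι} {a a' : A} (h : S.e p a = S.e q a') : a = a' := by
  by_cases hpq : p = q
  · subst hpq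
    exact S.e_inj p h
  · have h1 := S.e_disj p q a a' hpq h
    rw [S.e_root p q a h1] at h
    exact S.e_inj q h

theorem σ_pos {p q : ι} {b b' : B} (h : S.σ p b = S.σ q b') : b = b' := by
  by_cases hpq : p = q
  · subst hpq
    exact S.σ_inj p h
  · have h1 := S.σ_disj p q b b' hpq h
    rw [S.σ_root p q b h1] at h
    exact S.σ_inj q h

theorem σ_same {p q : ι} {b b' : B} (h : S.σ p b = S.σ q b') (hb : b ∉ S.RB) : p = q := by
  by_contra hpq
  exact hb (S.σ_disj p q b b' hpq h)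

theorem X_off {p : ι} {t : Ω × ℕ} (ht : t ∈ (S.X p).support) (a : A) : t ≠ S.e p a := by
  rintro rfl
  obtain ⟨q, a', hq, _, ha', h⟩ := S.X_supp p _ ht
  have h1 := e_pos h
  subst h1
  exact ha' (S.e_disj p q a a hq.ne' h)

variable (S)

/-- the position of an element -/
noncomputable def δ (t : Ω × ℕ) : Gr A :=
  if h : ∃ q a, t = S.e q a then bs h.choose_spec.choose else 0

variable {S}

theorem δ_e (q : ι) (a : A) : S.δ (S.e q a) = bs a := by
  have h : ∃ q' a', S.e q a = S.e q' a' := ⟨q, a, rfl⟩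
  rw [δ, dif_pos h]
  rw [← e_pos h.choose_spec.choose_spec]

variable (S)

/-- all copies are identified -/
noncomputable def fold : Gr (Ω × ℕ) →ₗ[ZMod 2] Gr A := Finsupp.linearCombination (ZMod 2) S.δ

/-- the `p`-th copy -/
noncomputable def push (p : ι) : Gr A →ₗ[ZMod 2] Gr (Ω × ℕ) :=
  Finsupp.lmapDomain (ZMod 2) (ZMod 2) (S.e p)

variable {S}

theorem fold_bs (q : ι) (a : A) : S.fold (bs (S.e q a)) = bs a := by
  rw [fold, Finsupp.linearCombination_single, one_smul, δ_e]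

theorem push_bs (p : ι) (a : A) : S.push p (bs a) = bs (S.e p a) := by
  simp [push, bs, Finsupp.lmapDomain_apply, Finsupp.mapDomain_single]

theorem fold_push (p : ι) (w : Gr A) : S.fold (S.push p w) = w := by
  have : S.fold.comp (S.push p) = LinearMap.id := by
    refine Finsupp.lhom_ext' fun a => LinearMap.ext_ring ?_
    show S.fold (S.push p (bs a)) = bs a
    rw [push_bs, fold_bs]
  exact LinearMap.congr_fun this w

theorem on_push (p : ι) (w : Gr A) : S.On p (S.push p w) := by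
  intro t ht
  have := Finsupp.mapDomain_support ht
  obtain ⟨a, _, h⟩ := Finset.mem_image.1 this
  exact ⟨a, h.symm⟩

theorem fold_eq (z : Gr (Ω × ℕ)) : S.fold z = ∑ t ∈ z.support, S.δ t := by
  rw [fold, Finsupp.linearCombination_apply, Finsupp.sum]
  refine Finset.sum_congr rfl fun t ht => ?_
  rw [z2_ne.1 (Finsupp.mem_support_iff.1 ht), one_smul]

theorem push_fold {p : ι} {z : Gr (Ω × ℕ)} (h : S.On p z) : S.push p (S.fold z) = z := by
  rw [fold_eq, map_sum]
  have h1 : z = ∑ t ∈ z.support, bs t := by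
    conv_lhs => rw [← Finsupp.sum_single z]
    rw [Finsupp.sum]
    refine Finset.sum_congr rfl fun t ht => ?_
    rw [z2_ne.1 (Finsupp.mem_support_iff.1 ht)]
  conv_rhs => rw [h1]
  refine Finset.sum_congr rfl fun t ht => ?_
  obtain ⟨a, rfl⟩ := h t ht
  rw [δ_e, push_bs]

theorem mem_fold {z : Gr (Ω × ℕ)} {a : A} (h : a ∈ (S.fold z).support) :
    ∃ t ∈ z.support, ∃ q, t = S.e q a := by
  by_contra hcon
  push Not at hcon
  rw [Finsupp.mem_support_iff, fold_eq, Finsupp.finsetSum_apply] at h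
  refine h (Finset.sum_eq_zero fun t ht => ?_)
  by_cases h1 : ∃ q a', t = S.e q a'
  · obtain ⟨q, a', rfl⟩ := h1
    rw [δ_e, Finsupp.single_eq_of_ne]
    intro h2
    exact hcon _ ht q (by rw [h2])
  · rw [δ, dif_neg h1]
    rfl

variable (S)

/-- the kernel of the type -/
def ker (b : B) (y : Gr A) : Prop := par y = 0 ∧ ev (S.v b) y = 0

variable {S}

theorem ker_zero (b : B) : S.ker b 0 := ⟨map_zero _, map_zero _⟩

theorem fold_par {z : Gr (Ω × ℕ)} (h : ∀ t ∈ z.support, ∃ q a, t = S.e q a) :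
    par (S.fold z) = par z := by
  rw [fold_eq, map_sum]
  simp only [par, Finsupp.linearCombination_apply, Finsupp.sum]
  refine Finset.sum_congr rfl fun t ht => ?_
  obtain ⟨q, a, rfl⟩ := h t ht
  rw [δ_e, z2_ne.1 (Finsupp.mem_support_iff.1 ht)]
  simp [bs]

theorem fold_ev {b : B} {β : Ω × ℕ → BB} {z : Gr (Ω × ℕ)}
    (h : ∀ t ∈ z.support, ∃ q a, t = S.e q a ∧ β t = S.v b a) :
    ev (S.v b) (S.fold z) = ev β z := by
  rw [fold_eq, map_sum, ev_eq_sum β]
  refine Finset.sum_congr rfl fun t ht => ?_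
  obtain ⟨q, a, rfl, h2⟩ := h t ht
  rw [δ_e, ev_bs, h2]

variable (S)

/-- the `p`-th condition -/
noncomputable abbrev cd (p : ι) : Finset (Atom Ω) := cnd (S.e p) (S.σ p) S.v S.Q

variable {S}

theorem K_cd {p : ι} {b : B} {z : Gr (Ω × ℕ)} :
    K (S.cd p) (S.σ p b) z ↔ S.On p z ∧ S.ker b (S.fold z) := by
  constructor
  · rintro ⟨β, h1, h2, h3⟩
    have h4 : ∀ t ∈ z.support, ∃ a, t = S.e p a ∧ β t = S.v b a := by
      intro t ht
      obtain ⟨b', a, hb, ha, hβ⟩ := mem_cnd_inl.1 (h1 t ht)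
      rw [← S.σ_inj p hb] at hβ
      exact ⟨a, ha, hβ⟩
    refine ⟨fun t ht => ?_, ?_, ?_⟩
    · obtain ⟨a, ha, _⟩ := h4 t ht
      exact ⟨a, ha⟩
    · rw [fold_par, h2]
      intro t ht
      obtain ⟨a, ha, _⟩ := h4 t ht
      exact ⟨p, a, ha⟩
    · rw [fold_ev (β := β), h3]
      intro t ht
      obtain ⟨a, ha, hβ⟩ := h4 t ht
      exact ⟨p, a, ha, hβ⟩
  · rintro ⟨h1, h2, h3⟩
    refine ⟨fun t => ev (S.v b) (S.δ t), ?_, ?_, ?_⟩
    · intro t ht
      obtain ⟨a, rfl⟩ := h1 t ht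
      exact mem_cnd_inl.2 ⟨b, a, rfl, rfl, by simp only [δ_e, ev_bs]⟩
    · rw [← fold_par (S := S), h2]
      intro t ht
      obtain ⟨a, ha⟩ := h1 t ht
      exact ⟨p, a, ha⟩
    · rw [← fold_ev (S := S) (b := b), h3]
      intro t ht
      obtain ⟨a, rfl⟩ := h1 t ht
      exact ⟨p, a, rfl, by simp only [δ_e, ev_bs]⟩

variable (S)

/-- suitable values for the absorbed elements -/
structure Cross (c : ι → B → Ω × ℕ → BB) (M : ℕ) : Prop where
  bound : ∀ b a m, M ≤ m → S.v b a m = 0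
  sum : ∀ p b, ev (c p b) (S.X p) = ev (S.v b) (S.fold (S.X p))
  indep : ∀ p b (z : Gr (Ω × ℕ)), z.support ⊆ (S.X p).support →
    (∀ m, M ≤ m → ev (c p b) z m = 0) → z = 0 ∨ z = S.X p

theorem exists_crossFam : ∃ c M, S.Cross c M := by
  have h1 : ∃ M : ℕ, ∀ b a m, M ≤ m → S.v b a m = 0 := by
    refine ⟨Finset.univ.sup (fun u : B × A => (S.v u.1 u.2).support.sup id + 1), ?_⟩
    intro b a m hm
    by_contra hne
    have h2 : m ≤ (S.v b a).support.sup id :=
      Finset.le_sup (f := id) (Finsupp.mem_support_iff.2 hne)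
    have h3 : (S.v b a).support.sup id + 1 ≤
        Finset.univ.sup (fun u : B × A => (S.v u.1 u.2).support.sup id + 1) :=
      Finset.le_sup (f := fun u : B × A => (S.v u.1 u.2).support.sup id + 1)
        (Finset.mem_univ (b, a))
    omega
  obtain ⟨M, hM⟩ := h1
  have h2 : ∀ p b, ∃ c : Ω × ℕ → BB, ev c (S.X p) = ev (S.v b) (S.fold (S.X p)) ∧
      ∀ z : Gr (Ω × ℕ), z.support ⊆ (S.X p).support →
      (∀ m, M ≤ m → ev c z m = 0) → z = 0 ∨ z = S.X p := by
    intro p b
    apply exists_cross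
    · intro m hm
      rw [ev_apply]
      exact Finset.sum_eq_zero fun a _ => hM b a m hm
    · intro h
      rw [h, map_zero, map_zero]
  choose c hc1 hc2 using h2
  exact ⟨c, M, hM, hc1, hc2⟩

/-- the amalgam -/
noncomputable def amal (c : ι → B → Ω × ℕ → BB) : Finset (Atom Ω) :=
  (Finset.univ.biUnion fun p : ι => (S.cd p).filter fun a => S.lev p ≤ S.dep a.1) ∪
    Finset.univ.biUnion fun p : ι =>
      ((Finset.univ ×ˢ (S.X p).support).filter fun u : B × (Ω × ℕ) =>
        u.1 ∉ S.RB ∧ S.lev p ≤ S.dep (S.σ p u.1)).image fun u => (S.σ p u.1, .inl (u.2, c p u.1 u.2))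

variable {S} {c : ι → B → Ω × ℕ → BB} {M : ℕ}

theorem mem_amal {a : Atom Ω} : a ∈ S.amal c ↔ (∃ p, a ∈ S.cd p ∧ S.lev p ≤ S.dep a.1) ∨
    ∃ p b t, b ∉ S.RB ∧ S.lev p ≤ S.dep (S.σ p b) ∧ t ∈ (S.X p).support ∧
      a = (S.σ p b, .inl (t, c p b t)) := by
  simp only [amal, Finset.mem_union, Finset.mem_biUnion, Finset.mem_univ, true_and,
    Finset.mem_filter, Finset.mem_image, Finset.mem_product, Prod.exists]
  refine or_congr Iff.rfl ?_
  constructor
  · rintro ⟨p, b, α, n, ⟨h1, h2, h3⟩, rfl⟩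
    exact ⟨p, b, α, n, h2, h3, h1, rfl⟩
  · rintro ⟨p, b, α, n, h2, h3, h1, rfl⟩
    exact ⟨p, b, α, n, ⟨h1, h2, h3⟩, rfl⟩

theorem mem_amal_inl {g : Sy Ω} {t : Ω × ℕ} {β : BB} : (g, .inl (t, β)) ∈ S.amal c ↔
    (∃ p b a, g = S.σ p b ∧ S.lev p ≤ S.dep g ∧ t = S.e p a ∧ β = S.v b a) ∨
    ∃ p b, g = S.σ p b ∧ b ∉ S.RB ∧ S.lev p ≤ S.dep g ∧ t ∈ (S.X p).support ∧ β = c p b t := by
  rw [mem_amal]
  constructor
  · rintro (⟨p, h1, h2⟩ | ⟨p, b, t', h1, h2, h3, h4⟩)
    · obtain ⟨b, a, hg, ht, hβ⟩ := mem_cnd_inl.1 h1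
      exact Or.inl ⟨p, b, a, hg, h2, ht, hβ⟩
    · simp only [Prod.mk.injEq, Sum.inl.injEq] at h4
      obtain ⟨rfl, rfl, rfl⟩ := h4
      exact Or.inr ⟨p, b, rfl, h1, h2, h3, rfl⟩
  · rintro (⟨p, b, a, h1, h2, h3, h4⟩ | ⟨p, b, rfl, h1, h2, h3, rfl⟩)
    · exact Or.inl ⟨p, mem_cnd_inl.2 ⟨b, a, h1, h3, h4⟩, h2⟩
    · exact Or.inr ⟨p, b, t, h1, h2, h3, rfl⟩

theorem mem_amal_inr {g : Sy Ω} {w : Gr (Ω × ℕ)} {n : ℕ} : (g, .inr (w, n)) ∈ S.amal c ↔
    ∃ p b w0, (b, w0, n) ∈ S.Q ∧ g = S.σ p b ∧ S.lev p ≤ S.dep g ∧ w = S.push p w0 := by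
  rw [mem_amal]
  constructor
  · rintro (⟨p, h1, h2⟩ | ⟨p, b, t', h1, h2, h3, h4⟩)
    · obtain ⟨b, w0, h3, h4, h5⟩ := mem_cnd_inr.1 h1
      exact ⟨p, b, w0, h3, h4, h2, h5⟩
    · simp at h4
  · rintro ⟨p, b, w0, h1, h2, h3, h4⟩
    exact Or.inl ⟨p, mem_cnd_inr.2 ⟨b, w0, h1, h2, h4⟩, h3⟩

theorem cd_amal {p : ι} {g : Sy Ω} {d : Dt Ω} (h : (g, d) ∈ S.cd p) (hp : S.lev p ≤ S.dep g) :
    (g, d) ∈ S.amal c := mem_amal.2 (Or.inl ⟨p, h, hp⟩)

/-- values on the copies -/
theorem amal_values (hc : S.Cross c M) {p : ι} {b : B} {z : Gr (Ω × ℕ)}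
    (h : K (S.amal c) (S.σ p b) z) :
    S.ker b (S.fold z) ∧
      (b ∈ S.RB → ∀ t ∈ z.support, ∃ q a, S.lev q ≤ S.dep (S.σ p b) ∧ t = S.e q a) ∧
      (b ∉ S.RB → S.In p z) := by
  obtain ⟨β, h1, h2, h3⟩ := h
  by_cases hb : b ∈ S.RB
  · have h4 : ∀ t ∈ z.support, ∃ q a, S.lev q ≤ S.dep (S.σ p b) ∧ t = S.e q a ∧ β t = S.v b a := by
      intro t ht
      rcases mem_amal_inl.1 (h1 t ht) with ⟨q, b', a, hg, hl, ht', hβ⟩ | ⟨q, b', hg, hb', _⟩
      · rw [← σ_pos hg] at hβ
        exact ⟨q, a, hl, ht', hβ⟩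
      · rw [σ_pos hg] at hb
        exact absurd hb hb'
    refine ⟨⟨?_, ?_⟩, fun _ t ht => ?_, fun h => absurd hb h⟩
    · rw [fold_par, h2]
      intro t ht
      obtain ⟨q, a, _, ha, _⟩ := h4 t ht
      exact ⟨q, a, ha⟩
    · rw [fold_ev (β := β), h3]
      intro t ht
      obtain ⟨q, a, _, ha⟩ := h4 t ht
      exact ⟨q, a, ha⟩
    · obtain ⟨q, a, hl, ha, _⟩ := h4 t ht
      exact ⟨q, a, hl, ha⟩
  · have h4 : ∀ t ∈ z.support, (∃ a, t = S.e p a ∧ β t = S.v b a) ∨
        (t ∈ (S.X p).support ∧ β t = c p b t) := by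
      intro t ht
      rcases mem_amal_inl.1 (h1 t ht) with ⟨q, b', a, hg, hl, ht', hβ⟩ | ⟨q, b', hg, hb', _, h5, h6⟩
      · have hq := σ_same hg hb
        subst hq
        rw [← σ_pos hg] at hβ
        exact Or.inl ⟨a, ht', hβ⟩
      · have hq := σ_same hg hb
        subst hq
        rw [← σ_pos hg] at h6
        exact Or.inr ⟨h5, h6⟩
    -- split `z`
    let z0 : Gr (Ω × ℕ) := z.filter fun t => ∃ a, t = S.e p a
    let z1 : Gr (Ω × ℕ) := z.filter fun t => ¬ ∃ a, t = S.e p a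
    have hz : z0 + z1 = z := Finsupp.filter_add_filter_not z _
    have hz0 : ∀ t ∈ z0.support, ∃ a, t = S.e p a ∧ β t = S.v b a := by
      intro t ht
      rw [Finsupp.support_filter, Finset.mem_filter] at ht
      rcases h4 t ht.1 with h | h
      · exact h
      · obtain ⟨a, ha⟩ := ht.2
        exact absurd ha (X_off h.1 a)
    have hz1 : ∀ t ∈ z1.support, t ∈ (S.X p).support ∧ β t = c p b t := by
      intro t ht
      rw [Finsupp.support_filter, Finset.mem_filter] at ht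
      rcases h4 t ht.1 with ⟨a, ha, _⟩ | h
      · exact absurd ⟨a, ha⟩ ht.2
      · exact h
    have hon : S.On p z0 := fun t ht => by
      obtain ⟨a, ha, _⟩ := hz0 t ht
      exact ⟨a, ha⟩
    have e0 : ev (S.v b) (S.fold z0) = ev β z0 := fold_ev fun t ht => by
      obtain ⟨a, ha⟩ := hz0 t ht
      exact ⟨p, a, ha⟩
    have e1 : ev β z1 = ev (c p b) z1 := ev_congr fun t ht => (hz1 t ht).2
    have e2 : ev β z0 + ev β z1 = 0 := by rw [← map_add, hz, h3]
    have e3 : ∀ m, M ≤ m → ev (c p b) z1 m = 0 := by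
      intro m hm
      have h5 : ev β z1 = ev β z0 := (g_add_eq.1 e2).symm
      rw [← e1, h5, ← e0, ev_apply]
      exact Finset.sum_eq_zero fun a _ => hc.bound b a m hm
    have hcov : ∀ t ∈ z.support, ∃ q a, t = S.e q a := by
      intro t ht
      rcases h4 t ht with ⟨a, ha, _⟩ | ⟨h, _⟩
      · exact ⟨p, a, ha⟩
      · obtain ⟨q, a, _, _, _, ha⟩ := S.X_supp p t h
        exact ⟨q, a, ha⟩
    refine ⟨⟨by rw [fold_par hcov, h2], ?_⟩, fun h => absurd h hb, fun _ => ?_⟩
    · rcases hc.indep p b z1 (fun t ht => (hz1 t ht).1) e3 with h5 | h5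
      · rw [← hz, h5, add_zero, e0]
        rw [h5, map_zero, add_zero] at e2
        exact e2
      · rw [← hz, map_add, map_add, e0, h5, ← hc.sum, ← h5, ← e1, e2]
    · rcases hc.indep p b z1 (fun t ht => (hz1 t ht).1) e3 with h5 | h5
      · left
        rw [← hz, h5, add_zero]
        exact hon
      · right
        rw [← hz, h5, add_assoc, g_add_self, add_zero]
        exact hon

theorem amal_common {p : ι} {b : B} {z : Gr (Ω × ℕ)} (hb : b ∈ S.RB)
    (h : ∀ t ∈ z.support, ∃ q a, S.lev q ≤ S.dep (S.σ p b) ∧ t = S.e q a)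
    (h' : S.ker b (S.fold z)) : K (S.amal c) (S.σ p b) z := by
  have hcov : ∀ t ∈ z.support, ∃ q a, t = S.e q a := by
    intro t ht
    obtain ⟨q, a, _, ha⟩ := h t ht
    exact ⟨q, a, ha⟩
  refine ⟨fun t => ev (S.v b) (S.δ t), ?_, ?_, ?_⟩
  · intro t ht
    obtain ⟨q, a, hl, rfl⟩ := h t ht
    refine mem_amal_inl.2 (Or.inl ⟨q, b, a, S.σ_root p q b hb, hl, rfl, ?_⟩)
    simp only [δ_e, ev_bs]
  · rw [← fold_par hcov, h'.1]
  · rw [← fold_ev (S := S) (b := b), h'.2]
    intro t ht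
    obtain ⟨q, a, rfl⟩ := hcov t ht
    exact ⟨q, a, rfl, by simp only [δ_e, ev_bs]⟩

theorem amal_private (hc : S.Cross c M) {p : ι} {b : B} {z : Gr (Ω × ℕ)} (hb : b ∉ S.RB)
    (hl : S.lev p ≤ S.dep (S.σ p b)) (h : S.In p z)
    (h' : S.ker b (S.fold z)) : K (S.amal c) (S.σ p b) z := by
  let β : Ω × ℕ → BB := fun t => if t ∈ (S.X p).support then c p b t else ev (S.v b) (S.δ t)
  have hβX : ev β (S.X p) = ev (S.v b) (S.fold (S.X p)) := by
    rw [← hc.sum]
    exact ev_congr fun t ht => by simp only [β, if_pos ht]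
  have hβ0 : ∀ y, S.On p y → ev β y = ev (S.v b) (S.fold y) := by
    intro y hy
    rw [fold_ev]
    intro t ht
    obtain ⟨a, rfl⟩ := hy t ht
    refine ⟨p, a, rfl, ?_⟩
    have : S.e p a ∉ (S.X p).support := fun h => X_off h a rfl
    simp only [β, if_neg this]
    rw [δ_e, ev_bs]
  have hz : ∀ t ∈ z.support, (∃ a, t = S.e p a) ∨ t ∈ (S.X p).support := by
    intro t ht
    rcases h with h | h
    · exact Or.inl (h t ht)
    · by_cases htX : t ∈ (S.X p).support
      · exact Or.inr htX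
      · refine Or.inl (h t ?_)
        rw [Finsupp.mem_support_iff, Finsupp.add_apply, Finsupp.notMem_support_iff.1 htX, add_zero]
        exact Finsupp.mem_support_iff.1 ht
  have hcov : ∀ t ∈ z.support, ∃ q a, t = S.e q a := by
    intro t ht
    rcases hz t ht with ⟨a, ha⟩ | h
    · exact ⟨p, a, ha⟩
    · obtain ⟨q, a, _, _, _, ha⟩ := S.X_supp p t h
      exact ⟨q, a, ha⟩
  refine ⟨β, ?_, ?_, ?_⟩
  · intro t ht
    refine mem_amal_inl.2 ?_
    by_cases htX : t ∈ (S.X p).support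
    · exact Or.inr ⟨p, b, rfl, hb, hl, htX, by simp only [β, if_pos htX]⟩
    · rcases hz t ht with ⟨a, rfl⟩ | h
      · refine Or.inl ⟨p, b, a, rfl, hl, rfl, ?_⟩
        simp only [β, if_neg htX]
        rw [δ_e, ev_bs]
      · exact absurd h htX
  · rw [← fold_par hcov, h'.1]
  · rcases h with h | h
    · rw [hβ0 z h, h'.2]
    · have h1 := hβ0 _ h
      rw [map_add, map_add, map_add, hβX] at h1
      rw [add_right_cancel h1, h'.2]

theorem amal_fn : Fn (S.amal c) := by
  intro g t β β' h h'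
  rcases mem_amal_inl.1 h with ⟨p, b, a, hg, _, ht, hβ⟩ | ⟨p, b, hg, hb, _, ht, hβ⟩ <;>
  rcases mem_amal_inl.1 h' with ⟨q, b', a', hg', _, ht', hβ'⟩ | ⟨q, b', hg', hb', _, ht', hβ'⟩
  · rw [hβ, hβ', σ_pos (hg.symm.trans hg'), e_pos (ht.symm.trans ht')]
  · have h1 := σ_same (hg'.symm.trans hg) hb'
    subst h1
    exact absurd ht (X_off ht' a)
  · have h1 := σ_same (hg.symm.trans hg') hb
    subst h1
    exact absurd ht' (X_off ht a')
  · have h1 := σ_same (hg.symm.trans hg') hb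
    subst h1
    rw [hβ, hβ', σ_pos (hg.symm.trans hg')]

/-- the absorbed element is equivalent to its copy -/
theorem amal_abs (hc : S.Cross c M) {p : ι} {b : B} {y : Gr (Ω × ℕ)}
    (hl : S.lev p ≤ S.dep (S.σ p b)) (h : S.In p y) :
    K (S.amal c) (S.σ p b) (y + S.push p (S.fold y)) := by
  rcases h with h | h
  · rw [push_fold h, g_add_self]
    exact K_zero _ _
  · have hk : S.ker b (S.fold (y + S.push p (S.fold y))) := by
      rw [map_add, fold_push, g_add_self]
      exact ker_zero b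
    by_cases hb : b ∈ S.RB
    · refine amal_common hb (fun t ht => ?_) hk
      rcases Finset.mem_union.1 (Finsupp.support_add ht) with h1 | h1
      · by_cases htX : t ∈ (S.X p).support
        · obtain ⟨q, a, _, hq, _, ha⟩ := S.X_supp p t htX
          exact ⟨q, a, hq.trans hl, ha⟩
        · obtain ⟨a, ha⟩ := h t (by
            rw [Finsupp.mem_support_iff, Finsupp.add_apply, Finsupp.notMem_support_iff.1 htX,
              add_zero]
            exact Finsupp.mem_support_iff.1 h1)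
          exact ⟨p, a, hl, ha⟩
      · obtain ⟨a, ha⟩ := on_push p _ t h1
        exact ⟨p, a, hl, ha⟩
    · refine amal_private hc hb hl (Or.inr ?_) hk
      rw [add_right_comm]
      exact h.add (on_push p _)

theorem not_occ_psi {α : Ω × ℕ} (h : ∀ p a, α ≠ S.e p a) : ¬ Occ (S.amal c) (.psi α) := by
  rintro ⟨d, hd⟩
  have key : ∀ p b, (.psi α : Sy Ω) = S.σ p b → False := by
    intro p b hb
    obtain ⟨a, rfl⟩ := S.σ_not p b α hb.symm
    rw [S.σ_psi] at hb
    simp only [Sy.psi.injEq] at hb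
    exact h p a hb
  rcases d with ⟨t, β⟩ | ⟨w, n⟩
  · rcases mem_amal_inl.1 hd with ⟨p, b, a, hg, _⟩ | ⟨p, b, hg, _⟩
    · exact key _ _ hg
    · exact key _ _ hg
  · obtain ⟨p, b, w0, _, hg, _⟩ := mem_amal_inr.1 hd
    exact key _ _ hg

theorem K_cov (hc : S.Cross c M) {p : ι} {b : B} {z : Gr (Ω × ℕ)}
    (h : K (S.amal c) (S.σ p b) z) : ∀ t ∈ z.support, ∃ q a, t = S.e q a := by
  obtain ⟨_, h1, h2⟩ := amal_values hc h
  intro t ht
  by_cases hb : b ∈ S.RB
  · obtain ⟨q, a, _, ha⟩ := h1 hb t ht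
    exact ⟨q, a, ha⟩
  · rcases h2 hb with h3 | h3
    · obtain ⟨a, ha⟩ := h3 t ht
      exact ⟨p, a, ha⟩
    · by_cases htX : t ∈ (S.X p).support
      · obtain ⟨q, a, _, _, _, ha⟩ := S.X_supp p t htX
        exact ⟨q, a, ha⟩
      · obtain ⟨a, ha⟩ := h3 t (by
            rw [Finsupp.mem_support_iff, Finsupp.add_apply, Finsupp.notMem_support_iff.1 htX,
              add_zero]
            exact Finsupp.mem_support_iff.1 ht)
        exact ⟨p, a, ha⟩

theorem fold_add_bs (z : Gr (Ω × ℕ)) (q : ι) (a : A) :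
    S.push q (S.fold (z + bs (S.e q a))) = S.push q (S.fold z) + bs (S.e q a) := by
  rw [map_add, map_add, fold_bs, push_bs]

/-- transfer of a kernel relation of a `psi` to one copy -/
theorem K_psi (hc : S.Cross c M) {p : ι} (q : ι) {a : A} {z : Gr (Ω × ℕ)}
    (h : K (S.amal c) (.psi (S.e p a)) (z + bs (S.e p a))) :
    K (S.cd q) (.psi (S.e q a)) (S.push q (S.fold z) + bs (S.e q a)) := by
  rw [← S.σ_psi p a] at h
  have h1 := (amal_values hc h).1
  rw [← S.σ_psi q a, K_cd]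
  refine ⟨(on_push q _).add (on_bs q a), ?_⟩
  rw [map_add, fold_push, fold_bs]
  rwa [map_add, fold_bs] at h1

theorem ψ_root [Nontrivial ι] {a : A} : S.ψ a ∈ S.RB ↔ a ∈ S.RA := by
  obtain ⟨p, q, hpq⟩ := exists_pair_ne ι
  constructor
  · intro h
    have h1 := S.σ_root p q _ h
    rw [S.σ_psi, S.σ_psi] at h1
    simp only [Sy.psi.injEq] at h1
    exact S.e_disj p q a a hpq h1
  · intro h
    apply S.σ_disj p q _ (S.ψ a) hpq
    rw [S.σ_psi, S.σ_psi, S.e_root p q a h]

theorem In_bs {p : ι} {a : A} {z : Gr (Ω × ℕ)} (h : S.In p (z + bs (S.e p a))) : S.In p z := by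
  have h1 := h.add (on_bs (S := S) p a)
  rwa [add_assoc, g_add_self, add_zero] at h1

theorem psi_priv [Nontrivial ι] (hc : S.Cross c M) {p : ι} {a : A} {z : Gr (Ω × ℕ)}
    (h : K (S.amal c) (.psi (S.e p a)) (z + bs (S.e p a))) (ha : a ∉ S.RA) : S.In p z := by
  rw [← S.σ_psi p a] at h
  exact In_bs ((amal_values hc h).2.2 (by rwa [ψ_root]))

theorem amal_good [Nontrivial ι] (hc : S.Cross c M) : Good (S.amal c) := by
  have hfn : Fn (S.amal c) := amal_fn
  refine ⟨hfn, ?_, ?_, ?_⟩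
  · -- disjointness
    intro α β z hne hα hβ
    by_cases hα' : ∃ p a, α = S.e p a
    · by_cases hβ' : ∃ p a, β = S.e p a
      · obtain ⟨p, a, rfl⟩ := hα'
        obtain ⟨q, a', rfl⟩ := hβ'
        by_cases hpq : ∃ r, S.e p a = S.e r a ∧ S.e q a' = S.e r a'
        · obtain ⟨r, h1, h2⟩ := hpq
          refine (S.good r).disj _ _ _ ?_ (K_psi hc r hα) (K_psi hc r hβ)
          rwa [← h1, ← h2]
        · have ha : a ∉ S.RA := fun h => hpq ⟨q, S.e_root p q a h, rfl⟩
          have ha' : a' ∉ S.RA := fun h => hpq ⟨p, rfl, S.e_root q p a' h⟩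
          have hpq' : p ≠ q := by
            rintro rfl
            exact hpq ⟨p, rfl, rfl⟩
          have h1 : S.In p z := psi_priv hc hα ha
          have h2 : S.In q z := psi_priv hc hβ ha'
          have h3 := S.only p q z hpq' h1 h2
          have h4 : S.On p z := fun t ht => by
            obtain ⟨a'', _, h⟩ := h3 t ht
            exact ⟨a'', h⟩
          have h5 := K_psi hc p hα
          rw [push_fold h4] at h5
          obtain ⟨t, ht, h6⟩ := (S.good p).bd _ _ h5
          obtain ⟨a'', h7, rfl⟩ := h3 t ht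
          exact absurd h6 (not_le.2 (S.blkR p a a'' ha h7))
      · push Not at hβ'
        have h1 := K_of_not_occ (not_occ_psi hβ') hβ
        rw [g_add_eq.1 h1] at hα
        obtain ⟨p, a, rfl⟩ := hα'
        rw [← S.σ_psi p a] at hα
        obtain ⟨q, a', h2⟩ := K_cov hc hα β (by
          rw [Finsupp.mem_support_iff, Finsupp.add_apply, Finsupp.single_eq_same,
            Finsupp.single_eq_of_ne hne.symm, add_zero]
          exact one_ne_zero)
        exact hβ' q a' h2
    · push Not at hα'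
      have h1 := K_of_not_occ (not_occ_psi hα') hα
      rw [g_add_eq.1 h1] at hβ
      by_cases hβ' : ∃ p a, β = S.e p a
      · obtain ⟨p, a, rfl⟩ := hβ'
        rw [← S.σ_psi p a] at hβ
        obtain ⟨q, a', h2⟩ := K_cov hc hβ α (by
          rw [Finsupp.mem_support_iff, Finsupp.add_apply, Finsupp.single_eq_same,
            Finsupp.single_eq_of_ne hne, add_zero]
          exact one_ne_zero)
        exact hα' q a' h2
      · push Not at hβ'
        have h2 := g_add_eq.1 (K_of_not_occ (not_occ_psi hβ') hβ)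
        exact hne (Finsupp.single_left_injective one_ne_zero h2)
  · -- boundedness
    intro α z hα
    by_cases hα' : ∃ p a, α = S.e p a
    · obtain ⟨p, a, rfl⟩ := hα'
      have h5 := K_psi hc p hα
      by_cases h4 : S.On p z
      · rw [push_fold h4] at h5
        exact (S.good p).bd _ _ h5
      · by_cases ha : a ∈ S.RA
        · obtain ⟨t, ht, h6⟩ := (S.good p).bd _ _ h5
          have h7 := Finsupp.mapDomain_support ht
          obtain ⟨a'', h8, rfl⟩ := Finset.mem_image.1 h7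
          obtain ⟨t', ht', q, rfl⟩ := mem_fold h8
          by_cases ha'' : a'' ∈ S.RA
          · exact ⟨_, ht', by rwa [S.e_root q p a'' ha'']⟩
          · refine ⟨_, ht', ?_⟩
            rw [S.e_root p q a ha]
            exact (S.blkR q a'' a ha'' ha).le
        · have h1 : S.In p z := psi_priv hc hα ha
          rcases h1 with h1 | h1
          · exact absurd h1 h4
          · have hX : S.X p ≠ 0 := by
              intro h
              rw [h, add_zero] at h1
              exact h4 h1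
            obtain ⟨t, ht⟩ := Finsupp.support_nonempty_iff.2 hX
            obtain ⟨q, a', hq, _, ha', h6⟩ := S.X_supp p t ht
            refine ⟨t, ?_, ?_⟩
            · by_contra hcon
              obtain ⟨a'', h7⟩ := h1 t (by
                rw [Finsupp.mem_support_iff, Finsupp.add_apply,
                  Finsupp.notMem_support_iff.1 hcon, zero_add]
                exact Finsupp.mem_support_iff.1 ht)
              exact X_off ht a'' h7
            · rw [h6]
              exact (S.blk p q a' a hq ha').le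
    · push Not at hα'
      have h1 := g_add_eq.1 (K_of_not_occ (not_occ_psi hα') hα)
      exact ⟨α, by simp [h1], le_rfl⟩
  · -- promises
    intro g w n hg
    obtain ⟨p, b, w0, hQ, rfl, hl, rfl⟩ := mem_amal_inr.1 hg
    have hcd : ∀ q, (S.σ q b, .inr (S.push q w0, n)) ∈ S.cd q := fun q =>
      mem_cnd_inr.2 ⟨b, w0, hQ, rfl, rfl⟩
    obtain ⟨m, dat, sym, hgm, ⟨k, hk, hsub⟩, hkept⟩ := (S.good p).pr _ _ _ (hcd p)
    have hrk : ∀ x k i, rk (sym x k i) < rk (S.σ p b) := by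
      intro x k i
      rw [hgm]
      exact rk_lt _ _ _ _ _ _
    have hsub' : ∀ q, (∀ h, rk h < rk (S.σ p b) → S.lev q ≤ S.dep h) → ∀ x k,
        Sub dat sym x k (S.cd q) → Sub dat sym x k (S.amal c) := by
      intro q hq x k h i d hd
      exact cd_amal (h i d hd) (hq _ (hrk x k i))
    have fin : ∀ q, (∀ h, rk h < rk (S.σ p b) → S.lev q ≤ S.dep h) →
        ∀ y x, S.In q y → ∀ h, rk h < rk (S.σ p b) → Occ (S.cd q) h →
          K (S.cd q) h (S.push q (S.fold y) + x) →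
          Occ (S.amal c) h ∧ K (S.amal c) h (y + x) := by
      intro q hq y x hy h hh ⟨d, hd⟩ hK
      refine ⟨⟨d, cd_amal hd (hq h hh)⟩, ?_⟩
      have h1 : K (S.amal c) h (S.push q (S.fold y) + x) :=
        hK.mono fun d hd => cd_amal hd (hq h hh)
      obtain ⟨b', rfl⟩ : ∃ b', h = S.σ q b' := by
        rcases d with ⟨t, β⟩ | ⟨w', n'⟩
        · obtain ⟨b', _, h2, _⟩ := mem_cnd_inl.1 hd
          exact ⟨b', h2⟩
        · obtain ⟨b', _, _, h2, _⟩ := mem_cnd_inr.1 hd
          exact ⟨b', h2⟩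
      have h2 := K_add hfn (amal_abs hc (hq _ hh) hy) h1
      rwa [add_assoc, ← add_assoc (S.push q (S.fold y)), g_add_self, zero_add] at h2
    have hp : ∀ h, rk h < rk (S.σ p b) → S.lev p ≤ S.dep h := fun h hh =>
      hl.trans (S.dep_mono _ _ hh)
    refine ⟨m, dat, sym, hgm, ⟨k, hk, hsub' p hp _ _ hsub⟩, fun y hy => ?_⟩
    by_cases hb : b ∈ S.RB
    · -- common symbol
      obtain ⟨hy1, hy2, _⟩ := amal_values hc hy
      have hy2 := hy2 hb
      obtain ⟨q, hq, hin⟩ := S.absorb p b m dat sym hb hgm (S.push p w0 + y) (by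
        intro t ht
        rcases Finset.mem_union.1 (Finsupp.support_add ht) with h1 | h1
        · obtain ⟨a, ha⟩ := on_push p _ t h1
          exact ⟨p, a, hl, ha⟩
        · exact hy2 t h1)
      have hq' : ∀ h, rk h < rk (S.σ p b) → S.lev q ≤ S.dep h := fun h hh =>
        hq.trans (S.dep_lt p b h hb hh)
      obtain ⟨m', dat', sym', hgm', _, hkept'⟩ := (S.good q).pr _ _ _ (hcd q)
      rw [← S.σ_root p q b hb, hgm] at hgm'
      simp only [Sy.phi.injEq] at hgm'
      obtain ⟨rfl, rfl, rfl⟩ := hgm'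
      obtain ⟨x, k', h1, h2, h3⟩ := hkept' (S.push q (S.fold y)) (K_cd.2 ⟨on_push q _, by
        rwa [fold_push]⟩)
      refine ⟨x, k', h1, hsub' q hq' _ _ h2, fun h hh => ?_⟩
      obtain ⟨h4, h5⟩ := h3 h hh
      obtain ⟨i, _, hi⟩ := hh
      refine fin q hq' (S.push p w0 + y) x hin h (hi ▸ hrk _ _ _) h4 ?_
      rw [map_add S.fold, fold_push, map_add]
      exact h5
    · -- private symbol
      obtain ⟨hy1, _, hy2⟩ := amal_values hc hy
      have hy2 := hy2 hb
      obtain ⟨x, k', h1, h2, h3⟩ := hkept (S.push p (S.fold y)) (K_cd.2 ⟨on_push p _, by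
        rwa [fold_push]⟩)
      refine ⟨x, k', h1, hsub' p hp _ _ h2, fun h hh => ?_⟩
      obtain ⟨h4, h5⟩ := h3 h hh
      obtain ⟨i, _, hi⟩ := hh
      refine fin p hp (S.push p w0 + y) x ?_ h (hi ▸ hrk _ _ _) h4 ?_
      · rw [add_comm]
        exact hy2.add (on_push p _)
      · rw [map_add S.fold, fold_push, map_add]
        exact h5

theorem cd_subset {p : ι} (hp : S.lev p = 0) : S.cd p ⊆ S.amal c := by
  rintro ⟨g, d⟩ h
  exact cd_amal h (by rw [hp]; exact Nat.zero_le _)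

end Sys

end Pool.Agent.KS6_46.RF
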