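import Mathlib

/-!
# Symbols, atoms and good conditions

`Y = Ω × ℕ` is the index set, `G = Y →₀ ZMod 2` the group and `BB` a countable Boolean group.
Each symbol `g` names a homomorphism from `G` to `BB`, given by its values on the basis. The kernel
of `g` consists of all `y` of even size with value zero. A condition is a finite set of atoms: an
atom is a symbol together with a value `(t, b)` or with a promise `(w, n)`.
-/

set_option autoImplicit false

namespace Pool.Agent.KS6_46.RF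

open Classical

/-- the countable group of values -/
abbrev BB : Type := ℕ →₀ ZMod 2

/-- the finite subsets of `Y` -/
abbrev Gr (Y : Type) : Type := Y →₀ ZMod 2

/-- the value of the homomorphism determined by `v` -/
noncomputable def ev {Y : Type} (v : Y → BB) : Gr Y →ₗ[ZMod 2] BB :=
  Finsupp.linearCombination (ZMod 2) v

/-- the parity of the number of elements -/
noncomputable def par {Y : Type} : Gr Y →ₗ[ZMod 2] ZMod 2 :=
  Finsupp.linearCombination (ZMod 2) fun _ => (1 : ZMod 2)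

/-- the basis vector -/
noncomputable abbrev bs {Y : Type} (t : Y) : Gr Y := Finsupp.single t 1

section Lin

variable {Y : Type}

theorem z2 (a : ZMod 2) : a = 0 ∨ a = 1 := by
  revert a
  decide

theorem z2_add_self (a : ZMod 2) : a + a = 0 := by
  revert a
  decide

theorem z2_ne {a : ZMod 2} : a ≠ 0 ↔ a = 1 := by
  revert a
  decide

theorem z2_add_eq {a b : ZMod 2} : a + b = 0 ↔ a = b := by
  revert a b
  decide

theorem g_add_self {Z : Type} (z : Z →₀ ZMod 2) : z + z = 0 := by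
  ext t
  exact z2_add_self _

theorem g_add_eq {Z : Type} {z z' : Z →₀ ZMod 2} : z + z' = 0 ↔ z = z' := by
  constructor
  · intro h
    ext t
    exact z2_add_eq.1 (by rw [← Finsupp.add_apply, h]; rfl)
  · rintro rfl
    exact g_add_self z

@[simp] theorem ev_bs (v : Y → BB) (t : Y) : ev v (bs t) = v t := by
  simp [ev, bs]

@[simp] theorem par_bs (t : Y) : par (bs t) = 1 := by
  simp [par, bs]

theorem ev_congr {v v' : Y → BB} {z : Gr Y} (h : ∀ t ∈ z.support, v t = v' t) :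
    ev v z = ev v' z := by
  simp only [ev, Finsupp.linearCombination_apply]
  exact Finsupp.sum_congr fun t ht => by rw [h t ht]

theorem ev_eq_sum (v : Y → BB) (z : Gr Y) : ev v z = ∑ t ∈ z.support, v t := by
  simp only [ev, Finsupp.linearCombination_apply, Finsupp.sum]
  refine Finset.sum_congr rfl fun t ht => ?_
  rw [z2_ne.1 (Finsupp.mem_support_iff.1 ht), one_smul]

theorem ev_apply (v : Y → BB) (z : Gr Y) (m : ℕ) : ev v z m = ∑ t ∈ z.support, v t m := by
  rw [ev_eq_sum, Finsupp.finsetSum_apply]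

end Lin

variable {Ω : Type}

/-- the data of an atom -/
abbrev Dt (Ω : Type) : Type := ((Ω × ℕ) × BB) ⊕ (Gr (Ω × ℕ) × ℕ)

/-- symbols -/
inductive Sy (Ω : Type) : Type
  | psi (α : Ω × ℕ) : Sy Ω
  | phi (m : ℕ) (dat : Gr (Ω × ℕ) → ℕ → ℕ × (ℕ → Option (Option (Dt Ω))))
      (sym : Gr (Ω × ℕ) → ℕ → ℕ → Sy Ω) : Sy Ω

/-- atoms -/
abbrev Atom (Ω : Type) : Type := Sy Ω × Dt Ω

/-- the rank of a symbol -/
noncomputable def rk : Sy Ω → Ordinal.{0}
  | .psi _ => 0
  | .phi _ _ sym => ⨆ u : Gr (Ω × ℕ) × ℕ × ℕ, Order.succ (rk (sym u.1 u.2.1 u.2.2))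

theorem rk_psi (α : Ω × ℕ) : rk (.psi α) = 0 := rfl

theorem rk_lt (m : ℕ) (dat : Gr (Ω × ℕ) → ℕ → ℕ × (ℕ → Option (Option (Dt Ω))))
    (sym : Gr (Ω × ℕ) → ℕ → ℕ → Sy Ω) (x : Gr (Ω × ℕ)) (k i : ℕ) :
    rk (sym x k i) < rk (.phi m dat sym) := by
  rw [rk]
  refine (Order.lt_succ _).trans_le ?_
  exact Ordinal.le_iSup (fun u : Gr (Ω × ℕ) × ℕ × ℕ => Order.succ (rk (sym u.1 u.2.1 u.2.2)))
    (x, k, i)

/-- the atoms required by the `k`-th entry of the name at `x` are in `s` -/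
def Sub (dat : Gr (Ω × ℕ) → ℕ → ℕ × (ℕ → Option (Option (Dt Ω))))
    (sym : Gr (Ω × ℕ) → ℕ → ℕ → Sy Ω) (x : Gr (Ω × ℕ)) (k : ℕ) (s : Finset (Atom Ω)) : Prop :=
  ∀ i d, (dat x k).2 i = some (some d) → (sym x k i, d) ∈ s

/-- the symbols of the `k`-th entry of the name at `x` -/
def Ph (dat : Gr (Ω × ℕ) → ℕ → ℕ × (ℕ → Option (Option (Dt Ω))))
    (sym : Gr (Ω × ℕ) → ℕ → ℕ → Sy Ω) (x : Gr (Ω × ℕ)) (k : ℕ) (h : Sy Ω) : Prop :=
  ∃ i, (dat x k).2 i = some none ∧ sym x k i = h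

/-- the condition `s` decides that `y` is in the kernel of `g` -/
def K (s : Finset (Atom Ω)) (g : Sy Ω) (y : Gr (Ω × ℕ)) : Prop :=
  ∃ β : Ω × ℕ → BB, (∀ t ∈ y.support, (g, .inl (t, β t)) ∈ s) ∧ par y = 0 ∧ ev β y = 0

theorem K.mono {s s' : Finset (Atom Ω)} {g : Sy Ω} {y : Gr (Ω × ℕ)} (h : K s g y)
    (hs : ∀ d, (g, d) ∈ s → (g, d) ∈ s') : K s' g y := by
  obtain ⟨β, h1, h2⟩ := h
  exact ⟨β, fun t ht => hs _ (h1 t ht), h2⟩

theorem K_zero (s : Finset (Atom Ω)) (g : Sy Ω) : K s g 0 :=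
  ⟨fun _ => 0, by simp, by simp, by simp⟩

/-- values are unique -/
def Fn (s : Finset (Atom Ω)) : Prop :=
  ∀ g t b b', (g, .inl (t, b)) ∈ s → (g, .inl (t, b')) ∈ s → b = b'

theorem K_add {s : Finset (Atom Ω)} (hs : Fn s) {g : Sy Ω} {y y' : Gr (Ω × ℕ)}
    (h : K s g y) (h' : K s g y') : K s g (y + y') := by
  obtain ⟨β, h1, h2, h3⟩ := h
  obtain ⟨β', h1', h2', h3'⟩ := h'
  let γ : Ω × ℕ → BB := fun t => if t ∈ y.support then β t else β' t
  have e1 : ev γ y = ev β y := ev_congr fun t ht => by simp only [γ, if_pos ht]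
  have e2 : ev γ y' = ev β' y' := ev_congr fun t ht => by
    by_cases h : t ∈ y.support
    · simp only [γ, if_pos h]
      exact hs _ _ _ _ (h1 t h) (h1' t ht)
    · simp only [γ, if_neg h]
  refine ⟨γ, ?_, by rw [map_add, h2, h2', add_zero], by rw [map_add, e1, e2, h3, h3', add_zero]⟩
  intro t ht
  by_cases h : t ∈ y.support
  · simp only [γ, if_pos h]
    exact h1 t h
  · simp only [γ, if_neg h]
    rcases Finset.mem_union.1 (Finsupp.support_add ht) with h' | h'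
    · exact absurd h' h
    · exact h1' t h'

/-- the symbol occurs in the condition -/
def Occ (s : Finset (Atom Ω)) (g : Sy Ω) : Prop := ∃ d, (g, d) ∈ s

theorem K_of_not_occ {s : Finset (Atom Ω)} {g : Sy Ω} (hg : ¬ Occ s g) {y : Gr (Ω × ℕ)}
    (h : K s g y) : y = 0 := by
  obtain ⟨β, h1, _⟩ := h
  by_contra hne
  obtain ⟨t, ht⟩ := Finsupp.support_nonempty_iff.2 hne
  exact hg ⟨_, h1 t ht⟩

theorem Occ.mono {s s' : Finset (Atom Ω)} {g : Sy Ω} (h : Occ s g) (hs : s ⊆ s') : Occ s' g := by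
  obtain ⟨d, hd⟩ := h
  exact ⟨d, hs hd⟩

/-- the promise of `g` at `w` with colour `n` is kept -/
def Kept (s : Finset (Atom Ω)) (g : Sy Ω) (w : Gr (Ω × ℕ)) (n : ℕ) : Prop :=
  ∃ m dat sym, g = .phi m dat sym ∧ (∃ k, (dat w k).1 = n ∧ Sub dat sym w k s) ∧
    ∀ y, K s g y → ∃ x k, (dat x k).1 = n ∧ Sub dat sym x k s ∧
      ∀ h, Ph dat sym x k h → Occ s h ∧ K s h (w + y + x)

/-- good conditions -/
structure Good [LinearOrder Ω] (s : Finset (Atom Ω)) : Prop where
  fn : Fn s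
  disj : ∀ α β z, α ≠ β → K s (.psi α) (z + bs α) → ¬ K s (.psi β) (z + bs β)
  bd : ∀ α z, K s (.psi α) (z + bs α) → ∃ t ∈ z.support, α.1 ≤ t.1
  pr : ∀ g w n, (g, .inr (w, n)) ∈ s → Kept s g w n

theorem Sub.mono {dat : Gr (Ω × ℕ) → ℕ → ℕ × (ℕ → Option (Option (Dt Ω)))}
    {sym : Gr (Ω × ℕ) → ℕ → ℕ → Sy Ω} {x : Gr (Ω × ℕ)} {k : ℕ} {s s' : Finset (Atom Ω)}
    (h : Sub dat sym x k s) (hs : s ⊆ s') : Sub dat sym x k s' :=
  fun i d hd => hs (h i d hd)

theorem good_empty [LinearOrder Ω] : Good (∅ : Finset (Atom Ω)) := by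
  have key : ∀ g (y : Gr (Ω × ℕ)), K (∅ : Finset (Atom Ω)) g y → y = 0 := by
    intro g y h
    exact K_of_not_occ (by rintro ⟨d, hd⟩; simp at hd) h
  refine ⟨?_, ?_, ?_, ?_⟩
  · intro g t b b' h
    simp at h
  · intro α β z hne h1 h2
    have e1 := g_add_eq.1 (key _ _ h1)
    have e2 := g_add_eq.1 (key _ _ h2)
    rw [e1] at e2
    exact hne (Finsupp.single_left_injective one_ne_zero e2)
  · intro α z h
    have e1 := g_add_eq.1 (key _ _ h)
    exact ⟨α, by simp [e1], le_rfl⟩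
  · intro g w n h
    simp at h

/-- a promise which is kept remains kept if kernels do not grow -/
theorem Kept.mono {s s' : Finset (Atom Ω)} (hs : s ⊆ s') {g : Sy Ω} {w : Gr (Ω × ℕ)} {n : ℕ}
    (hK : ∀ y, K s' g y → K s g y) (h : Kept s g w n) : Kept s' g w n := by
  obtain ⟨m, dat, sym, hg, ⟨k, hk, hsub⟩, h⟩ := h
  refine ⟨m, dat, sym, hg, ⟨k, hk, hsub.mono hs⟩, fun y hy => ?_⟩
  obtain ⟨x, k', h1, h2, h3⟩ := h y (hK y hy)
  exact ⟨x, k', h1, h2.mono hs, fun h' hh => ⟨(h3 h' hh).1.mono hs,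
    (h3 h' hh).2.mono fun _ hd => hs hd⟩⟩

/-- adding a fresh value does not change the kernels -/
theorem K_insert_fresh {s : Finset (Atom Ω)} {g : Sy Ω} {t : Ω × ℕ} {m : ℕ}
    (hnot : ∀ b, (g, .inl (t, b)) ∉ s) (hm : ∀ t' b', (g, .inl (t', b')) ∈ s → b' m = 0)
    {h : Sy Ω} {y : Gr (Ω × ℕ)}
    (hy : K (insert (g, .inl (t, Finsupp.single m 1)) s) h y) : K s h y := by
  obtain ⟨β, h1, h2, h3⟩ := hy
  refine ⟨β, fun u hu => ?_, h2, h3⟩
  rcases Finset.mem_insert.1 (h1 u hu) with h4 | h4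
  · exfalso
    simp only [Prod.mk.injEq, Sum.inl.injEq] at h4
    obtain ⟨rfl, rfl, h5⟩ := h4
    have h6 : ev β y m = 0 := by rw [h3]; rfl
    rw [ev_apply, ← Finset.add_sum_erase _ _ hu, h5] at h6
    rw [Finset.sum_eq_zero] at h6
    · simp at h6
    · intro t' ht'
      obtain ⟨hne, ht'⟩ := Finset.mem_erase.1 ht'
      rcases Finset.mem_insert.1 (h1 t' ht') with h7 | h7
      · simp only [Prod.mk.injEq, Sum.inl.injEq] at h7
        exact absurd h7.2.1 hne
      · exact hm _ _ h7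
  · exact h4

theorem good_insert_fresh [LinearOrder Ω] {s : Finset (Atom Ω)} (hs : Good s) {g : Sy Ω}
    {t : Ω × ℕ} {m : ℕ} (hnot : ∀ b, (g, .inl (t, b)) ∉ s)
    (hm : ∀ t' b', (g, .inl (t', b')) ∈ s → b' m = 0) :
    Good (insert (g, .inl (t, Finsupp.single m 1)) s) := by
  have key : ∀ h y, K (insert (g, .inl (t, Finsupp.single m 1)) s) h y → K s h y :=
    fun h y => K_insert_fresh hnot hm
  refine ⟨?_, ?_, ?_, ?_⟩
  · intro h u b b' h1 h2
    rcases Finset.mem_insert.1 h1 with h3 | h3 <;> rcases Finset.mem_insert.1 h2 with h4 | h4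
    · simp only [Prod.mk.injEq, Sum.inl.injEq] at h3 h4
      rw [h3.2.2, h4.2.2]
    · simp only [Prod.mk.injEq, Sum.inl.injEq] at h3
      obtain ⟨rfl, rfl, -⟩ := h3
      exact absurd h4 (hnot _)
    · simp only [Prod.mk.injEq, Sum.inl.injEq] at h4
      obtain ⟨rfl, rfl, -⟩ := h4
      exact absurd h3 (hnot _)
    · exact hs.fn _ _ _ _ h3 h4
  · intro α β z hne h1 h2
    exact hs.disj α β z hne (key _ _ h1) (key _ _ h2)
  · intro α z h
    exact hs.bd α z (key _ _ h)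
  · intro h w n h1
    rcases Finset.mem_insert.1 h1 with h1 | h1
    · simp at h1
    · exact (hs.pr _ _ _ h1).mono (Finset.subset_insert _ _) (key _)

/-- a coordinate which does not occur in the values -/
theorem exists_fresh (s : Finset (Atom Ω)) : ∃ M : ℕ, ∀ g t b, (g, .inl (t, b)) ∈ s →
    ∀ m, M ≤ m → b m = 0 := by
  let f : Atom Ω → ℕ := fun a => match a.2 with
    | .inl (_, b) => b.support.sup id + 1
    | .inr _ => 0
  refine ⟨s.sup f, fun g t b h m hm => ?_⟩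
  have h1 : b.support.sup id + 1 ≤ s.sup f := Finset.le_sup (f := f) h
  by_contra hne
  have h2 : m ≤ b.support.sup id := Finset.le_sup (f := id) (Finsupp.mem_support_iff.2 hne)
  omega

/-- all domains can be enlarged without changing the kernels -/
theorem exists_dom [LinearOrder Ω] {s : Finset (Atom Ω)} (hs : Good s)
    (D : Finset (Sy Ω × (Ω × ℕ))) : ∃ s', s ⊆ s' ∧ Good s' ∧
      (∀ u ∈ D, ∃ b, (u.1, .inl (u.2, b)) ∈ s') ∧
      (∀ a ∈ s', a ∈ s ∨ ∃ u ∈ D, ∃ b, a = (u.1, .inl (u.2, b))) ∧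
      ∀ g y, K s' g y → K s g y := by
  induction D using Finset.induction_on with
  | empty => exact ⟨s, Finset.Subset.refl _, hs, by simp, fun a ha => Or.inl ha, fun _ _ h => h⟩
  | insert u D _ ih =>
    obtain ⟨s', h1, h2, h3, h4, h5⟩ := ih
    by_cases hu : ∃ b, (u.1, .inl (u.2, b)) ∈ s'
    · refine ⟨s', h1, h2, ?_, ?_, h5⟩
      · intro v hv
        rcases Finset.mem_insert.1 hv with rfl | hv
        · exact hu
        · exact h3 v hv
      · intro a ha
        rcases h4 a ha with h | ⟨v, hv, h⟩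
        · exact Or.inl h
        · exact Or.inr ⟨v, Finset.mem_insert_of_mem hv, h⟩
    · push Not at hu
      obtain ⟨M, hM⟩ := exists_fresh s'
      have hm : ∀ t' b', (u.1, .inl (t', b')) ∈ s' → b' M = 0 := fun t' b' h => hM _ _ _ h M le_rfl
      refine ⟨insert (u.1, .inl (u.2, Finsupp.single M 1)) s', h1.trans (Finset.subset_insert _ _),
        good_insert_fresh h2 hu hm, ?_, ?_, fun g y h => h5 g y (K_insert_fresh hu hm h)⟩
      · intro v hv
        rcases Finset.mem_insert.1 hv with rfl | hv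
        · exact ⟨_, Finset.mem_insert_self _ _⟩
        · obtain ⟨b, hb⟩ := h3 v hv
          exact ⟨b, Finset.mem_insert_of_mem hb⟩
      · intro a ha
        rcases Finset.mem_insert.1 ha with rfl | ha
        · exact Or.inr ⟨u, Finset.mem_insert_self _ _, _, rfl⟩
        · rcases h4 a ha with h | ⟨v, hv, h⟩
          · exact Or.inl h
          · exact Or.inr ⟨v, Finset.mem_insert_of_mem hv, h⟩

/-- full conditions -/
structure Full (s : Finset (Atom Ω)) (F : Finset (Ω × ℕ)) (S : Finset (Sy Ω)) : Prop where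
  sym : ∀ a ∈ s, a.1 ∈ S
  tot : ∀ g ∈ S, ∀ t ∈ F, ∃ b, (g, .inl (t, b)) ∈ s
  dom : ∀ g t b, (g, .inl (t, b)) ∈ s → t ∈ F
  pro : ∀ g w n, (g, .inr (w, n)) ∈ s → w.support ⊆ F
  psi : ∀ α, .psi α ∈ S ↔ α ∈ F

theorem exists_full [LinearOrder Ω] {s : Finset (Atom Ω)} (hs : Good s) :
    ∃ s', s ⊆ s' ∧ Good s' ∧ ∃ F S, Full s' F S := by
  let f1 : Atom Ω → Finset (Ω × ℕ) := fun a => match a.2 with
    | .inl (t, _) => {t}
    | .inr (w, _) => w.support
  let f2 : Atom Ω → Finset (Ω × ℕ) := fun a => match a.1 with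
    | .psi α => {α}
    | .phi _ _ _ => ∅
  let F : Finset (Ω × ℕ) := s.biUnion f1 ∪ s.biUnion f2
  let S : Finset (Sy Ω) := s.image Prod.fst ∪ F.image .psi
  obtain ⟨s', h1, h2, h3, h4, h5⟩ := exists_dom hs (S ×ˢ F)
  have hF1 : ∀ g t b, (g, .inl (t, b)) ∈ s → t ∈ F := fun g t b h =>
    Finset.mem_union_left _ (Finset.mem_biUnion.2 ⟨_, h, Finset.mem_singleton_self _⟩)
  have hF2 : ∀ g w n, (g, .inr (w, n)) ∈ s → w.support ⊆ F := fun g w n h t ht =>
    Finset.mem_union_left _ (Finset.mem_biUnion.2 ⟨_, h, ht⟩)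
  have hF3 : ∀ α d, (.psi α, d) ∈ s → α ∈ F := fun α d h =>
    Finset.mem_union_right _ (Finset.mem_biUnion.2 ⟨_, h, Finset.mem_singleton_self _⟩)
  refine ⟨s', h1, h2, F, S, ?_, ?_, ?_, ?_, ?_⟩
  · intro a ha
    rcases h4 a ha with h | ⟨u, hu, b, rfl⟩
    · exact Finset.mem_union_left _ (Finset.mem_image_of_mem _ h)
    · exact (Finset.mem_product.1 hu).1
  · intro g hg t ht
    exact h3 (g, t) (Finset.mem_product.2 ⟨hg, ht⟩)
  · intro g t b h
    rcases h4 _ h with h | ⟨u, hu, b', h⟩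
    · exact hF1 _ _ _ h
    · simp only [Prod.mk.injEq, Sum.inl.injEq] at h
      rw [h.2.1]
      exact (Finset.mem_product.1 hu).2
  · intro g w n h
    rcases h4 _ h with h | ⟨u, hu, b', h⟩
    · exact hF2 _ _ _ h
    · simp at h
  · intro α
    constructor
    · intro h
      rcases Finset.mem_union.1 h with h | h
      · obtain ⟨⟨g, d⟩, ha, h⟩ := Finset.mem_image.1 h
        simp only at h
        subst h
        exact hF3 _ _ ha
      · obtain ⟨α', ha, h⟩ := Finset.mem_image.1 h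
        simp only [Sy.psi.injEq] at h
        rwa [← h]
    · intro h
      exact Finset.mem_union_right _ (Finset.mem_image_of_mem _ h)

end Pool.Agent.KS6_46.RF
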