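import Mathlib

/-!
# The layering lemma
-/

set_option autoImplicit false

namespace Pool.Agent.KS6_46.RF

open Classical

variable {W : Type} [Zero W]

/-- off `p`, the function `z` is either zero or `x` -/
def Ab {ι : Type} (x : ι → W) (p : ι) (z : ι → W) : Prop :=
  (∀ q, q ≠ p → z q = 0) ∨ ∀ q, q ≠ p → z q = x q

/-- greedy choice -/
noncomputable def grd (E : ℕ → ℕ → W) (p : ℕ) : ℕ → W :=
  if (∀ q, p ≤ q → E p q = 0) ∧ ∀ q : Fin p, ¬ Ab (grd E q.1) q.1 (E p) then E p else 0
termination_by p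
decreasing_by all_goals exact Fin.is_lt _

theorem grd_lt (E : ℕ → ℕ → W) {p q : ℕ} (h : grd E p q ≠ 0) : q < p := by
  rw [grd] at h
  split_ifs at h with h1
  · by_contra hcon
    exact h (h1.1 q (not_lt.1 hcon))
  · exact absurd rfl h

theorem grd_not (E : ℕ → ℕ → W) {p q : ℕ} (hq : q < p) (h : Ab (grd E q) q (grd E p)) :
    grd E p = 0 := by
  by_contra hne
  have h1 : (∀ q, p ≤ q → E p q = 0) ∧ ∀ q : Fin p, ¬ Ab (grd E q.1) q.1 (E p) := by
    by_contra hcon
    rw [grd, if_neg hcon] at hne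
    exact hne rfl
  rw [grd.eq_1 E p, if_pos h1] at h
  exact h1.2 ⟨q, hq⟩ h

theorem grd_disj (E : ℕ → ℕ → W) {p q : ℕ} (hq : q < p) {z : ℕ → W} (h : Ab (grd E p) p z)
    (h' : Ab (grd E q) q z) : z = 0 := by
  have hp : z p = 0 := by
    rcases h' with h' | h'
    · exact h' p hq.ne'
    · rw [h' p hq.ne']
      by_contra hne
      exact absurd (grd_lt E hne) (not_lt.2 hq.le)
  rcases h with h | h
  · funext r
    by_cases hr : r = p
    · rw [hr, hp]; rfl
    · exact h r hr
  · have hz : z = grd E p := by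
      funext r
      by_cases hr : r = p
      · rw [hr, hp]
        by_contra hne
        exact absurd (grd_lt E (Ne.symm hne)) (lt_irrefl _)
      · exact h r hr
    rw [hz] at h' ⊢
    exact grd_not E hq h'

theorem exists_greedy [Countable W] : ∃ X : ℕ → ℕ → W, (∀ p q, X p q ≠ 0 → q < p) ∧
    (∀ z : ℕ → W, (∃ c, ∀ q, c ≤ q → z q = 0) → ∃ p, Ab (X p) p z) ∧
    ∀ p q z, p ≠ q → Ab (X p) p z → Ab (X q) q z → z = 0 := by
  obtain ⟨g, hg⟩ := exists_surjective_nat (ℕ →₀ W)
  let E : ℕ → ℕ → W := fun p => g (Nat.unpair p).1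
  refine ⟨grd E, fun p q => grd_lt E, ?_, ?_⟩
  · rintro z ⟨c, hc⟩
    have hfin : (Function.support z).Finite := by
      refine (Set.finite_lt_nat c).subset ?_
      intro q hq
      by_contra hcon
      exact hq (hc q (not_lt.1 hcon))
    obtain ⟨k, hk⟩ := hg (Finsupp.ofSupportFinite z hfin)
    have hz : E (Nat.pair k c) = z := by
      simp only [E, Nat.unpair_pair, hk]
      rfl
    by_cases h : ∀ q : Fin (Nat.pair k c), ¬ Ab (grd E q.1) q.1 z
    · refine ⟨Nat.pair k c, Or.inr fun q _ => ?_⟩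
      rw [grd, if_pos, hz]
      refine ⟨fun q hq => ?_, ?_⟩
      · rw [hz]
        exact hc q ((Nat.right_le_pair k c).trans hq)
      · rw [hz]
        exact h
    · push Not at h
      obtain ⟨q, hq⟩ := h
      exact ⟨q.1, hq⟩
  · intro p q z hne h h'
    rcases lt_or_gt_of_ne hne with hlt | hlt
    · exact grd_disj E hlt h' h
    · exact grd_disj E hlt h h'

/-- the layering lemma -/
theorem exists_layers (W : Type) [Zero W] [Finite W] (n : ℕ) :
    ∃ (c : ℕ) (lev : ℕ → ℕ) (X : ℕ → ℕ → W), 2 ≤ c ∧ lev 0 = 0 ∧ lev 1 = 0 ∧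
      (∀ p, lev p ≤ n) ∧ (∀ p q, q ≤ p → lev q ≤ lev p) ∧ (∀ p q, X p q ≠ 0 → q < p) ∧
      (∀ k < n, ∀ z : ℕ → W, (∀ q, z q ≠ 0 → q < c ∧ lev q ≤ k) →
        ∃ p < c, lev p ≤ k + 1 ∧ Ab (X p) p z) ∧
      ∀ p q z, p ≠ q → Ab (X p) p z → Ab (X q) q z → z = 0 := by
  obtain ⟨X, hX1, hX2, hX3⟩ := exists_greedy (W := W)
  have hB : ∀ c : ℕ, ∃ b : ℕ, c ≤ b ∧
      ∀ z : ℕ → W, (∀ q, z q ≠ 0 → q < c) → ∃ p < b, Ab (X p) p z := by
    intro c
    let ext : (Fin c → W) → ℕ → W := fun f q => if h : q < c then f ⟨q, h⟩ else 0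
    have h1 : ∀ f : Fin c → W, ∃ p, Ab (X p) p (ext f) := fun f =>
      hX2 _ ⟨c, fun q hq => dif_neg (not_lt.2 hq)⟩
    choose P hP using h1
    obtain ⟨b, hb⟩ := (Set.finite_range P).bddAbove
    refine ⟨max c (b + 1), le_max_left _ _, fun z hz => ?_⟩
    have h2 : ext (fun i => z i.1) = z := by
      funext q
      by_cases h : q < c
      · simp only [ext, dif_pos h]
      · simp only [ext, dif_neg h]
        by_contra hne
        exact h (hz q (Ne.symm hne))
    refine ⟨P fun i => z i.1, ?_, ?_⟩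
    · exact lt_of_lt_of_le (Nat.lt_succ_of_le (hb ⟨_, rfl⟩)) (le_max_right _ _)
    · have h3 := hP fun i => z i.1
      rwa [h2] at h3
  choose B hB1 hB2 using hB
  let c : ℕ → ℕ := fun k => B^[k] 2
  have hcs : ∀ k, c (k + 1) = B (c k) := fun k => Function.iterate_succ_apply' B k 2
  have hmono : Monotone c := monotone_nat_of_le_succ fun k => by
    rw [hcs]
    exact hB1 _
  have hc0 : c 0 = 2 := rfl
  let lev : ℕ → ℕ := fun p => ((Finset.range n).filter fun k => c k ≤ p).card
  have hlev1 : ∀ p k, p < c k → lev p ≤ k := by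
    intro p k h
    have : ((Finset.range n).filter fun k => c k ≤ p) ⊆ Finset.range k := by
      intro j hj
      rw [Finset.mem_filter] at hj
      rw [Finset.mem_range]
      by_contra hcon
      exact absurd (h.trans_le (hmono (not_lt.1 hcon))) (not_lt.2 hj.2)
    simpa using Finset.card_le_card this
  have hlev2 : ∀ p k, k < n → lev p ≤ k → p < c k := by
    intro p k hk h
    by_contra hcon
    have : Finset.range (k + 1) ⊆ (Finset.range n).filter fun k => c k ≤ p := by
      intro j hj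
      rw [Finset.mem_range] at hj
      rw [Finset.mem_filter, Finset.mem_range]
      exact ⟨by omega, (hmono (by omega)).trans (not_lt.1 hcon)⟩
    have h2 := Finset.card_le_card this
    rw [Finset.card_range] at h2
    have h3 : lev p = ((Finset.range n).filter fun k => c k ≤ p).card := rfl
    omega
  refine ⟨c n, lev, X, ?_, ?_, ?_, ?_, ?_, hX1, ?_, hX3⟩
  · rw [← hc0]
    exact hmono (Nat.zero_le n)
  · exact Nat.le_zero.1 (hlev1 0 0 (by rw [hc0]; norm_num))
  · exact Nat.le_zero.1 (hlev1 1 0 (by rw [hc0]; norm_num))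
  · intro p
    refine (Finset.card_filter_le _ _).trans ?_
    rw [Finset.card_range]
  · intro p q hqp
    refine Finset.card_le_card fun j hj => ?_
    rw [Finset.mem_filter] at hj ⊢
    exact ⟨hj.1, hj.2.trans hqp⟩
  · intro k hk z hz
    obtain ⟨p, hp, h⟩ := hB2 (c k) z fun q hq => hlev2 q k hk (hz q hq).2
    rw [← hcs] at hp
    exact ⟨p, hp.trans_le (hmono hk), hlev1 p (k + 1) hp, h⟩

end Pool.Agent.KS6_46.RF
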