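import Pool.Agent.KS6_46.RF.Amalg
import Pool.Agent.KS6_46.RF.Layer
import Pool.Graph.R_seed8.Helper126.Fact

/-!
# The countable chain condition
-/

set_option autoImplicit false

namespace Pool.Agent.KS6_46.RF

open Classical

variable {Ω : Type}

/-- full conditions have types -/
theorem exists_type [LinearOrder Ω] {s : Finset (Atom Ω)} (hs : Good s) {F : Finset (Ω × ℕ)}
    {S : Finset (Sy Ω)} (h : Full s F S) : ∃ (n m : ℕ) (e : Fin n → Ω × ℕ) (σ : Fin m → Sy Ω)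
      (v : Fin m → Fin n → BB) (Q : Finset (Fin m × Gr (Fin n) × ℕ)) (ψ : Fin n → Fin m),
      Function.Injective e ∧ Function.Injective σ ∧ (∀ t, t ∈ F ↔ ∃ a, t = e a) ∧
      (∀ g, g ∈ S ↔ ∃ b, g = σ b) ∧ (∀ a, σ (ψ a) = .psi (e a)) ∧ s = cnd e σ v Q := by
  let e : Fin F.card → Ω × ℕ := fun a => (F.equivFin.symm a).1
  let σ : Fin S.card → Sy Ω := fun b => (S.equivFin.symm b).1
  have he : Function.Injective e := Subtype.val_injective.comp F.equivFin.symm.injective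
  have hσ : Function.Injective σ := Subtype.val_injective.comp S.equivFin.symm.injective
  have heF : ∀ t, t ∈ F ↔ ∃ a, t = e a := by
    intro t
    constructor
    · intro ht
      exact ⟨F.equivFin ⟨t, ht⟩, by simp [e]⟩
    · rintro ⟨a, rfl⟩
      exact (F.equivFin.symm a).2
  have hσS : ∀ g, g ∈ S ↔ ∃ b, g = σ b := by
    intro g
    constructor
    · intro ht
      exact ⟨S.equivFin ⟨g, ht⟩, by simp [σ]⟩
    · rintro ⟨a, rfl⟩
      exact (S.equivFin.symm a).2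
  have hv : ∀ b a, ∃ β, (σ b, .inl (e a, β)) ∈ s := fun b a =>
    h.tot _ ((hσS _).2 ⟨b, rfl⟩) _ ((heF _).2 ⟨a, rfl⟩)
  choose v hv using hv
  have hψ : ∀ a, ∃ b, σ b = .psi (e a) := by
    intro a
    obtain ⟨b, hb⟩ := (hσS _).1 ((h.psi (e a)).2 ((heF _).2 ⟨a, rfl⟩))
    exact ⟨b, hb.symm⟩
  choose ψ hψ using hψ
  have hpush : Function.Injective (Finsupp.mapDomain (M := ZMod 2) e) :=
    Finsupp.mapDomain_injective he
  let j : Fin S.card × Gr (Fin F.card) × ℕ → Atom Ω := fun u =>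
    (σ u.1, .inr (u.2.1.mapDomain e, u.2.2))
  have hj : Function.Injective j := by
    rintro ⟨b, w, n⟩ ⟨b', w', n'⟩ heq
    simp only [j, Prod.mk.injEq, Sum.inr.injEq] at heq
    rw [hσ heq.1, hpush heq.2.1, heq.2.2]
  refine ⟨F.card, S.card, e, σ, v, s.preimage j hj.injOn, ψ, he, hσ, heF, hσS, hψ, ?_⟩
  ext ⟨g, d⟩
  rcases d with ⟨t, β⟩ | ⟨w, n⟩
  · rw [mem_cnd_inl]
    constructor
    · intro hm
      obtain ⟨b, rfl⟩ := (hσS g).1 (h.sym _ hm)
      obtain ⟨a, rfl⟩ := (heF t).1 (h.dom _ _ _ hm)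
      exact ⟨b, a, rfl, rfl, hs.fn _ _ _ _ hm (hv b a)⟩
    · rintro ⟨b, a, rfl, rfl, rfl⟩
      exact hv b a
  · rw [mem_cnd_inr]
    constructor
    · intro hm
      obtain ⟨b, rfl⟩ := (hσS g).1 (h.sym _ hm)
      have hw := h.pro _ _ _ hm
      let w0 : Gr (Fin F.card) := w.comapDomain e he.injOn
      have hw0 : w0.mapDomain e = w := by
        apply Finsupp.mapDomain_comapDomain _ he
        intro t ht
        obtain ⟨a, ha⟩ := (heF t).1 (hw ht)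
        exact ⟨a, ha.symm⟩
      refine ⟨b, w0, ?_, rfl, hw0.symm⟩
      rw [Finset.mem_preimage]
      show (σ b, Sum.inr (w0.mapDomain e, n)) ∈ s
      rw [hw0]
      exact hm
    · rintro ⟨b, w0, hm, rfl, rfl⟩
      exact (Finset.mem_preimage (f := j) (hf := hj.injOn)).1 hm

/-- types, together with the positions of the elements of the root -/
abbrev Ty (R : Type) : Type := Σ n m : ℕ, (Fin m → Fin n → BB) ×
  Finset (Fin m × Gr (Fin n) × ℕ) × (Fin n → Fin m) × (R → Fin n ⊕ Fin m)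

instance (R : Type) [Finite R] : Countable (Ty R) := by
  have h1 : ∀ n, Countable (Gr (Fin n)) := fun n => by
    have : Finite (Gr (Fin n)) := Finite.of_equiv _ Finsupp.equivFunOnFinite.symm
    infer_instance
  infer_instance

/-- the condition `s` has an extension of type `τ` -/
def HasTy [LinearOrder Ω] (R : Finset ((Ω × ℕ) ⊕ Sy Ω)) (s : Finset (Atom Ω)) (τ : Ty R)
    (e : Fin τ.1 → Ω × ℕ) (σ : Fin τ.2.1 → Sy Ω) : Prop :=
  Function.Injective e ∧ Function.Injective σ ∧ (∀ a, σ (τ.2.2.2.2.1 a) = .psi (e a)) ∧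
    (∀ b α, σ b = .psi α → ∃ a, b = τ.2.2.2.2.1 a) ∧
    (∀ r : R, Sum.map e σ (τ.2.2.2.2.2 r) = r.1) ∧
    s ⊆ cnd e σ τ.2.2.1 τ.2.2.2.1 ∧ Good (cnd e σ τ.2.2.1 τ.2.2.2.1)

/-- a large family of conditions of the same type whose elements are in general position -/
theorem exists_system [LinearOrder Ω] (J : Set (Finset (Atom Ω))) (hJ : ¬ J.Countable)
    (hgood : ∀ s ∈ J, Good s) :
    ∃ (R : Finset ((Ω × ℕ) ⊕ Sy Ω)) (τ : Ty R) (I : Type) (c : I → Finset (Atom Ω))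
      (e : I → Fin τ.1 → Ω × ℕ) (σ : I → Fin τ.2.1 → Sy Ω),
      Function.Injective c ∧ (∀ i, c i ∈ J) ∧ ¬ Countable I ∧
      (∀ i, HasTy R (c i) τ (e i) (σ i)) ∧
      (∀ i j, i ≠ j → ∀ a a', e i a = e j a' → .inl (e i a) ∈ R) ∧
      ∀ i j, i ≠ j → ∀ b b', σ i b = σ j b' → .inr (σ i b) ∈ R := by
  -- full extensions
  have hfull : ∀ s : Finset (Atom Ω), ∃ (s' : Finset (Atom Ω)) (F : Finset (Ω × ℕ))
      (S : Finset (Sy Ω)), s ∈ J → s ⊆ s' ∧ Good s' ∧ Full s' F S := by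
    intro s
    by_cases hs : s ∈ J
    · obtain ⟨s', h1, h2, F, S, h3⟩ := exists_full (hgood s hs)
      exact ⟨s', F, S, fun _ => ⟨h1, h2, h3⟩⟩
    · exact ⟨∅, ∅, ∅, fun h => absurd h hs⟩
  choose f F S hf using hfull
  obtain ⟨J', R, hJ', hunc, hR, hd⟩ := Helper126.delta_system
    (fun s => (F s).disjSum (S s)) J hJ
  have hty : ∀ s : J', ∃ τ : Ty R, ∃ (e : Fin τ.1 → Ω × ℕ) (σ : Fin τ.2.1 → Sy Ω),
      HasTy R s.1 τ e σ ∧ (∀ a, e a ∈ F s) ∧ ∀ b, σ b ∈ S s := by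
    rintro ⟨s, hs⟩
    obtain ⟨h1, h2, h3⟩ := hf s (hJ' hs)
    obtain ⟨n, m, e, σ, v, Q, ψ, he, hσ, hF, hS, hψ, heq⟩ := exists_type h2 h3
    have hρ : ∀ r : R, ∃ u : Fin n ⊕ Fin m, Sum.map e σ u = r.1 := by
      intro r
      have h4 := hR s hs r.2
      rcases hr : r.1 with t | g
      · rw [hr, Finset.inl_mem_disjSum] at h4
        obtain ⟨a, ha⟩ := (hF t).1 h4
        exact ⟨.inl a, by rw [ha]; rfl⟩
      · rw [hr, Finset.inr_mem_disjSum] at h4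
        obtain ⟨b, hb⟩ := (hS g).1 h4
        exact ⟨.inr b, by rw [hb]; rfl⟩
    choose ρ hρ using hρ
    refine ⟨⟨n, m, v, Q, ψ, ρ⟩, e, σ, ⟨he, hσ, hψ, ?_, hρ, ?_, ?_⟩, ?_, ?_⟩
    · intro b α hb
      have h4 : (.psi α : Sy Ω) ∈ S s := (hS _).2 ⟨b, hb.symm⟩
      obtain ⟨a, ha⟩ := (hF α).1 ((h3.psi α).1 h4)
      refine ⟨a, hσ ?_⟩
      rw [hψ, hb, ha]
    · show s ⊆ cnd e σ v Q
      rwa [← heq]
    · show Good (cnd e σ v Q)
      rwa [← heq]
    · exact fun a => (hF _).2 ⟨a, rfl⟩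
    · exact fun b => (hS _).2 ⟨b, rfl⟩
  choose T hT using hty
  obtain ⟨τ, hτ⟩ := Helper126.uncountable_fiber T Set.univ
    (fun h => hunc (Set.countable_coe_iff.1 (Set.countable_univ_iff.1 h)))
  have h1 : ∀ i : {i : J' // T i = τ}, ∃ (e : Fin τ.1 → Ω × ℕ) (σ : Fin τ.2.1 → Sy Ω),
      HasTy R i.1.1 τ e σ ∧ (∀ a, e a ∈ F i.1.1) ∧ ∀ b, σ b ∈ S i.1.1 := by
    rintro ⟨i, rfl⟩
    exact hT i
  choose e σ h1 h2 h3 using h1
  have hne : ∀ i j : {i : J' // T i = τ}, i ≠ j → i.1.1 ≠ j.1.1 := fun i j hij h =>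
    hij (Subtype.ext (Subtype.ext h))
  refine ⟨R, τ, {i : J' // T i = τ}, fun i => i.1.1, e, σ, ?_, fun i => hJ' i.1.2, ?_, h1, ?_, ?_⟩
  · intro i j h
    exact Subtype.ext (Subtype.ext h)
  · intro h
    apply hτ
    have h4 : ({i : J' | T i = τ} : Set J').Countable := h
    simpa using h4
  · intro i j hij a a' h
    refine hd _ i.1.2 _ j.1.2 (hne i j hij) _ ?_ ?_
    · exact Finset.inl_mem_disjSum.2 (h2 i a)
    · rw [h]
      exact Finset.inl_mem_disjSum.2 (h2 j a')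
  · intro i j hij a a' h
    refine hd _ i.1.2 _ j.1.2 (hne i j hij) _ ?_ ?_
    · exact Finset.inr_mem_disjSum.2 (h3 i a)
    · rw [h]
      exact Finset.inr_mem_disjSum.2 (h3 j a')

end Pool.Agent.KS6_46.RF
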