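import Pool.Agent.KS6_46.RF.Ccc

/-!
# The countable chain condition: conclusion
-/

set_option autoImplicit false

namespace Pool.Agent.KS6_46.RF

open Classical

variable {Ω : Type}

theorem exists_sequence [LinearOrder Ω] (hΩ : ∀ β : Ω, (Set.Iic β).Countable) {I : Type} {n : ℕ}
    (hI : ¬ Countable I) (e : I → Fin n → Ω × ℕ) (RA : Set (Fin n))
    (hdisj : ∀ i j, i ≠ j → ∀ a a', e i a = e j a' → a ∈ RA) :
    ∃ f : ℕ → I, ∀ k l, k < l → f k ≠ f l ∧ ∀ a, a ∉ RA → ∀ a', (e (f k) a').1 < (e (f l) a).1 := by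
  have hY : ∀ β : Ω, {t : Ω × ℕ | t.1 ≤ β}.Countable := by
    intro β
    have h1 : {t : Ω × ℕ | t.1 ≤ β} = Set.Iic β ×ˢ (Set.univ : Set ℕ) := by
      ext t
      simp
    rw [h1]
    exact (hΩ β).prod Set.countable_univ
  have hbad : ∀ i : I, {j : I | j = i ∨ ∃ a, a ∉ RA ∧ ∃ a', (e j a).1 ≤ (e i a').1}.Countable := by
    intro i
    have h1 : {j : I | j = i ∨ ∃ a, a ∉ RA ∧ ∃ a', (e j a).1 ≤ (e i a').1} ⊆
        {i} ∪ ⋃ a : {a // a ∉ RA}, ⋃ a' : Fin n, {j : I | (e j a.1).1 ≤ (e i a').1} := by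
      rintro j (h | ⟨a, ha, a', h⟩)
      · exact Or.inl h
      · exact Or.inr (Set.mem_iUnion.2 ⟨⟨a, ha⟩, Set.mem_iUnion.2 ⟨a', h⟩⟩)
    refine Set.Countable.mono h1 ((Set.countable_singleton i).union ?_)
    refine Set.countable_iUnion fun a => Set.countable_iUnion fun a' => ?_
    refine Set.countable_of_injective_of_countable_image (f := fun j => e j a.1) ?_
      ((hY (e i a').1).mono ?_)
    · intro j _ j' _ h
      by_contra hne
      exact a.2 (hdisj j j' hne _ _ h)
    · rintro _ ⟨j, hj, rfl⟩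
      exact hj
  obtain ⟨f, _, hf⟩ := exists_seq_of_forall_finset_exists (fun _ : I => True)
    (fun i j => i ≠ j ∧ ∀ a, a ∉ RA → ∀ a', (e i a').1 < (e j a).1) (by
      intro s _
      have h2 : (⋃ i ∈ s, {j : I | j = i ∨ ∃ a, a ∉ RA ∧ ∃ a', (e j a).1 ≤ (e i a').1}).Countable :=
        s.countable_toSet.biUnion fun i _ => hbad i
      have h3 : ∃ j, j ∉ ⋃ i ∈ s, {j : I | j = i ∨ ∃ a, a ∉ RA ∧ ∃ a', (e j a).1 ≤ (e i a').1} := by
        by_contra hcon
        push Not at hcon
        exact hI (Set.countable_univ_iff.1 (h2.mono fun j _ => hcon j))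
      obtain ⟨j, hj⟩ := h3
      refine ⟨j, trivial, fun i hi => ?_⟩
      simp only [Set.mem_iUnion, Set.mem_ofPred_eq, not_exists, not_or, not_and, not_le] at hj
      exact ⟨fun h => (hj i hi).1 h.symm, fun a ha a' => (hj i hi).2 a ha a'⟩)
  exact ⟨f, hf⟩

/-- the countable chain condition -/
theorem ccc_good [LinearOrder Ω] (hΩ : ∀ β : Ω, (Set.Iic β).Countable)
    (J : Set (Finset (Atom Ω))) (hgood : ∀ s ∈ J, Good s)
    (hanti : ∀ s ∈ J, ∀ s' ∈ J, s ≠ s' → ¬ ∃ r, Good r ∧ s ⊆ r ∧ s' ⊆ r) : J.Countable := by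
  by_contra hJ
  obtain ⟨R, ⟨n, m, v, Q, ψ, ρ⟩, I, cI, e, σ, hcI, hcJ, hI, hty, hde, hdσ⟩ :=
    exists_system J hJ hgood
  simp only [HasTy] at e σ hty hde hdσ
  let RA : Set (Fin n) := {a | ∃ r : R, ρ r = .inl a}
  let RB : Set (Fin m) := {b | ∃ r : R, ρ r = .inr b}
  have e_inj : ∀ i, Function.Injective (e i) := fun i => (hty i).1
  have σ_inj : ∀ i, Function.Injective (σ i) := fun i => (hty i).2.1
  have e_root : ∀ i j a, a ∈ RA → e i a = e j a := by
    rintro i j a ⟨r, hr⟩
    have h1 := (hty i).2.2.2.2.1 r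
    have h2 := (hty j).2.2.2.2.1 r
    rw [hr, Sum.map_inl] at h1 h2
    exact Sum.inl_injective (h1.trans h2.symm)
  have σ_root : ∀ i j b, b ∈ RB → σ i b = σ j b := by
    rintro i j b ⟨r, hr⟩
    have h1 := (hty i).2.2.2.2.1 r
    have h2 := (hty j).2.2.2.2.1 r
    rw [hr, Sum.map_inr] at h1 h2
    exact Sum.inr_injective (h1.trans h2.symm)
  have e_disj : ∀ i j, i ≠ j → ∀ a a', e i a = e j a' → a ∈ RA := by
    intro i j hij a a' h
    have h1 := hde i j hij a a' h
    refine ⟨⟨_, h1⟩, ?_⟩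
    have h2 := (hty i).2.2.2.2.1 ⟨_, h1⟩
    rcases hρ : ρ ⟨_, h1⟩ with a'' | b
    · rw [hρ, Sum.map_inl] at h2
      rw [e_inj i (Sum.inl_injective h2)]
    · rw [hρ, Sum.map_inr] at h2
      simp at h2
  have σ_disj : ∀ i j, i ≠ j → ∀ b b', σ i b = σ j b' → b ∈ RB := by
    intro i j hij b b' h
    have h1 := hdσ i j hij b b' h
    refine ⟨⟨_, h1⟩, ?_⟩
    have h2 := (hty i).2.2.2.2.1 ⟨_, h1⟩
    rcases hρ : ρ ⟨_, h1⟩ with a'' | b''
    · rw [hρ, Sum.map_inl] at h2
      simp at h2
    · rw [hρ, Sum.map_inr] at h2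
      rw [σ_inj i (Sum.inr_injective h2)]
  obtain ⟨f, hf⟩ := exists_sequence hΩ hI e RA e_disj
  -- common ranks
  let CR : Finset Ordinal.{0} :=
    ((Finset.univ.filter fun b : Fin m => b ∈ RB).image fun b => rk (σ (f 0) b)).erase 0
  let dep : Sy Ω → ℕ := fun g => (CR.filter fun r => rk g < r).card
  have hCR : ∀ i b, b ∈ RB → rk (σ i b) ≠ 0 → rk (σ i b) ∈ CR := by
    intro i b hb h0
    rw [Finset.mem_erase]
    refine ⟨h0, Finset.mem_image.2 ⟨b, Finset.mem_filter.2 ⟨Finset.mem_univ _, hb⟩, ?_⟩⟩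
    rw [σ_root i (f 0) b hb]
  obtain ⟨c, lev, X, hc2, hl0, hl1, hlN, hlm, hXlt, hab, hon⟩ :=
    exists_layers ({a // a ∉ RA} → ZMod 2) CR.card
  -- the copies
  let e' : Fin c → Fin n → Ω × ℕ := fun p => e (f (c - p.1))
  let σ' : Fin c → Fin m → Sy Ω := fun p => σ (f (c - p.1))
  have hfne : ∀ p q : Fin c, p ≠ q → f (c - p.1) ≠ f (c - q.1) := by
    intro p q hpq
    have h1 := p.2
    have h2 := q.2
    have h3 : p.1 ≠ q.1 := fun h => hpq (Fin.ext h)
    rcases lt_or_gt_of_ne h3 with h | h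
    · exact (hf _ _ (show c - q.1 < c - p.1 by omega)).1.symm
    · exact (hf _ _ (show c - p.1 < c - q.1 by omega)).1
  let j : Fin c × {a // a ∉ RA} → Ω × ℕ := fun u => e' u.1 u.2.1
  have hj : Function.Injective j := by
    rintro ⟨q, a⟩ ⟨q', a'⟩ h
    simp only [j] at h
    have hq : q = q' := by
      by_contra hne
      exact a.2 (e_disj _ _ (hfne q q' hne) _ _ h)
    subst hq
    have := e_inj _ h
    rw [Subtype.ext this]
  let X' : Fin c → Gr (Ω × ℕ) := fun p => (Finsupp.equivFunOnFinite.symm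
    (fun u : Fin c × {a // a ∉ RA} => X p.1 u.1.1 u.2)).mapDomain j
  have hX1 : ∀ (p q : Fin c) (a : Fin n) (ha : a ∉ RA), X' p (e' q a) = X p.1 q.1 ⟨a, ha⟩ := by
    intro p q a ha
    exact Finsupp.mapDomain_apply hj _ (q, ⟨a, ha⟩)
  have hX2 : ∀ (p : Fin c) (t : Ω × ℕ), X' p t ≠ 0 → ∃ (q : Fin c) (a : Fin n) (ha : a ∉ RA),
      t = e' q a ∧ X p.1 q.1 ⟨a, ha⟩ ≠ 0 := by
    intro p t ht
    by_cases h : t ∈ Set.range j
    · obtain ⟨⟨q, a, ha⟩, rfl⟩ := h
      exact ⟨q, a, ha, rfl, by rw [← hX1]; exact ht⟩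
    · exact absurd (Finsupp.mapDomain_of_notMem_range _ _ h) ht
  let zT : Gr (Ω × ℕ) → ℕ → {a // a ∉ RA} → ZMod 2 := fun z q a =>
    if h : q < c then z (e' ⟨q, h⟩ a.1) else 0
  have hzT : ∀ z (q : Fin c) a, zT z q.1 a = z (e' q a.1) := fun z q a => by
    simp only [zT, dif_pos q.2]
  have hzT0 : ∀ z q, ¬ q < c → zT z q = 0 := fun z q h => by
    funext a
    simp only [zT, dif_neg h]
    rfl
  have hInAb : ∀ (p : Fin c) (z : Gr (Ω × ℕ)), ((∀ t ∈ z.support, ∃ a, t = e' p a) ∨
      ∀ t ∈ (z + X' p).support, ∃ a, t = e' p a) → Ab (X p.1) p.1 (zT z) := by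
    intro p z h
    have key : ∀ (q : Fin c) (a : {a // a ∉ RA}), q ≠ p → ¬ ∃ a', e' q a.1 = e' p a' := by
      rintro q a hqp ⟨a', h'⟩
      exact a.2 (e_disj _ _ (hfne q p hqp) _ _ h')
    rcases h with h | h
    · left
      intro q hq
      by_cases hqc : q < c
      · funext a
        rw [hzT z ⟨q, hqc⟩]
        by_contra hne
        exact key ⟨q, hqc⟩ a (fun h => hq (congrArg Fin.val h)) (h _ (Finsupp.mem_support_iff.2 hne))
      · exact hzT0 z q hqc
    · right
      intro q hq
      by_cases hqc : q < c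
      · funext a
        rw [hzT z ⟨q, hqc⟩, ← hX1 p ⟨q, hqc⟩ a.1 a.2]
        by_contra hne
        refine key ⟨q, hqc⟩ a (fun h => hq (congrArg Fin.val h)) (h _ (Finsupp.mem_support_iff.2 ?_))
        rw [Finsupp.add_apply]
        exact fun h0 => hne (z2_add_eq.1 h0)
      · rw [hzT0 z q hqc]
        by_contra hne
        exact hqc ((hXlt p.1 q (Ne.symm hne)).trans p.2)
  let S : Sys Ω (Fin c) (Fin n) (Fin m) :=
    { RA := RA
      RB := RB
      e := e'
      σ := σ'
      v := v
      Q := Q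
      ψ := ψ
      e_inj := fun p => e_inj _
      e_root := fun p q a ha => e_root _ _ a ha
      e_disj := fun p q a a' hpq h => e_disj _ _ (hfne p q hpq) a a' h
      σ_inj := fun p => σ_inj _
      σ_root := fun p q b hb => σ_root _ _ b hb
      σ_disj := fun p q b b' hpq h => σ_disj _ _ (hfne p q hpq) b b' h
      σ_psi := fun p a => (hty _).2.2.1 a
      σ_not := fun p b α h => (hty _).2.2.2.1 b α h
      blk := fun p q a a' hqp ha => (hf _ _ (by
        have h1 : q.1 < p.1 := hqp
        have h2 := p.2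
        omega)).2 a ha a'
      blkR := fun p a a' ha ha' => by
        have h1 := (hf 0 (c - p.1) (by have := p.2; omega)).2 a ha a'
        rwa [e_root (f 0) (f (c - p.1)) a' ha'] at h1
      good := fun p => (hty _).2.2.2.2.2.2
      lev := fun p => lev p.1
      dep := dep
      X := X'
      lev_psi := fun p α => by
        refine (hlN p.1).trans ?_
        have h1 : (CR.filter fun r => rk (.psi α : Sy Ω) < r) = CR := by
          rw [Finset.filter_eq_self]
          intro r hr
          rw [rk_psi]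
          exact pos_iff_ne_zero.2 (Finset.mem_erase.1 hr).1
        show CR.card ≤ (CR.filter fun r => rk (.psi α : Sy Ω) < r).card
        rw [h1]
      dep_mono := fun g h hh => by
        refine Finset.card_le_card fun r hr => ?_
        rw [Finset.mem_filter] at hr ⊢
        exact ⟨hr.1, hh.trans hr.2⟩
      dep_lt := fun p b h hb hh => by
        have h1 : rk (σ' p b) ∈ CR := hCR _ _ hb (fun h0 => by
          rw [h0] at hh
          exact absurd hh not_lt_zero)
        refine Nat.succ_le_of_lt (Finset.card_lt_card ?_)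
        refine ⟨fun r hr => ?_, fun hcon => ?_⟩
        · rw [Finset.mem_filter] at hr ⊢
          exact ⟨hr.1, hh.trans hr.2⟩
        · have h2 := hcon (Finset.mem_filter.2 ⟨h1, hh⟩)
          exact absurd (Finset.mem_filter.1 h2).2 (lt_irrefl _)
      X_supp := fun p t ht => by
        obtain ⟨q, a, ha, h1, h2⟩ := hX2 p t (Finsupp.mem_support_iff.1 ht)
        have h3 : q.1 < p.1 := hXlt p.1 q.1 (fun h => h2 (by rw [h]; rfl))
        exact ⟨q, a, h3, hlm _ _ h3.le, ha, h1⟩
      absorb := fun p b k dat sym hb hσ z hz => by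
        have hrk : rk (σ' p b) ≠ 0 := by
          rw [hσ]
          exact ne_bot_of_gt (rk_lt k dat sym 0 0 0)
        have hdep : dep (σ' p b) < CR.card := by
          refine Finset.card_lt_card ⟨Finset.filter_subset _ _, fun hcon => ?_⟩
          have h2 := hcon (hCR _ _ hb hrk)
          exact absurd (Finset.mem_filter.1 h2).2 (lt_irrefl _)
        obtain ⟨p', hp', hl', h⟩ := hab _ hdep (zT z) (by
          intro q hq
          have hqc : q < c := by
            by_contra hcon
            exact hq (hzT0 z q hcon)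
          refine ⟨hqc, ?_⟩
          obtain ⟨a, ha⟩ := Function.ne_iff.1 hq
          rw [hzT z ⟨q, hqc⟩] at ha
          obtain ⟨q', a', hl, h'⟩ := hz _ (Finsupp.mem_support_iff.2 ha)
          have hqq : (⟨q, hqc⟩ : Fin c) = q' := by
            by_contra hne
            exact a.2 (e_disj _ _ (hfne _ _ hne) _ _ h')
          rw [← hqq] at hl
          exact hl)
        refine ⟨⟨p', hp'⟩, hl', ?_⟩
        rcases h with h | h
        · left
          intro t ht
          obtain ⟨q, a, _, rfl⟩ := hz t ht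
          by_cases ha : a ∈ RA
          · exact ⟨a, e_root _ _ a ha⟩
          · by_cases hq : q.1 = p'
            · subst hq
              exact ⟨a, rfl⟩
            · exfalso
              have h1 := congrFun (h q.1 hq) ⟨a, ha⟩
              rw [hzT z q] at h1
              exact Finsupp.mem_support_iff.1 ht h1
        · right
          intro t ht
          have hcov : ∃ q a, t = e' q a := by
            rcases Finset.mem_union.1 (Finsupp.support_add ht) with h1 | h1
            · obtain ⟨q, a, _, h2⟩ := hz t h1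
              exact ⟨q, a, h2⟩
            · obtain ⟨q, a, _, h2, _⟩ := hX2 _ t (Finsupp.mem_support_iff.1 h1)
              exact ⟨q, a, h2⟩
          obtain ⟨q, a, rfl⟩ := hcov
          by_cases ha : a ∈ RA
          · exact ⟨a, e_root _ _ a ha⟩
          · by_cases hq : q.1 = p'
            · subst hq
              exact ⟨a, rfl⟩
            · exfalso
              have h1 := congrFun (h q.1 hq) ⟨a, ha⟩
              rw [hzT z q, ← hX1 ⟨p', hp'⟩ q a ha] at h1
              apply Finsupp.mem_support_iff.1 ht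
              rw [Finsupp.add_apply]
              exact z2_add_eq.2 h1
      only := fun p q z hpq hp hq t ht => by
        have h1 := hon p.1 q.1 (zT z) (fun h => hpq (Fin.ext h)) (hInAb p z hp) (hInAb q z hq)
        have h2 : ∀ (q' : Fin c) (a : Fin n), t = e' q' a → a ∈ RA := by
          rintro q' a rfl
          by_contra ha
          apply Finsupp.mem_support_iff.1 ht
          rw [← hzT z q' ⟨a, ha⟩, h1]
          rfl
        rcases hp with hp | hp
        · obtain ⟨a, ha⟩ := hp t ht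
          exact ⟨a, h2 p a ha, ha⟩
        · by_cases htX : t ∈ (X' p).support
          · obtain ⟨q', a, ha, h3, _⟩ := hX2 _ t (Finsupp.mem_support_iff.1 htX)
            exact absurd (h2 q' a h3) ha
          · obtain ⟨a, ha⟩ := hp t (by
              rw [Finsupp.mem_support_iff, Finsupp.add_apply, Finsupp.notMem_support_iff.1 htX,
                add_zero]
              exact Finsupp.mem_support_iff.1 ht)
            exact ⟨a, h2 p a ha, ha⟩ }
  have h0c : 0 < c := by omega
  have h1c : 1 < c := by omega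
  have : Nontrivial (Fin c) := ⟨⟨0, h0c⟩, ⟨1, h1c⟩, by
    intro h
    exact absurd (congrArg Fin.val h) (by norm_num)⟩
  obtain ⟨cr, M, hcr⟩ := S.exists_crossFam
  refine hanti (cI (f (c - 0))) (hcJ _) (cI (f (c - 1))) (hcJ _) ?_
    ⟨S.amal cr, Sys.amal_good hcr, ?_, ?_⟩
  · intro h
    exact hfne ⟨0, h0c⟩ ⟨1, h1c⟩ (by
      intro h
      exact absurd (congrArg Fin.val h) (by norm_num)) (hcI h)
  · exact ((hty _).2.2.2.2.2.1).trans (Sys.cd_subset (S := S) (p := ⟨0, h0c⟩) hl0)
  · exact ((hty _).2.2.2.2.2.1).trans (Sys.cd_subset (S := S) (p := ⟨1, h1c⟩) hl1)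

end Pool.Agent.KS6_46.RF
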