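import Pool.Agent.KS6_46.RF.Amalg

/-!
# Density lemmas
-/

set_option autoImplicit false

namespace Pool.Agent.KS6_46.RF

open Classical

variable {Ω : Type}

/-- a new element in a given block -/
theorem exists_new (s : Finset (Atom Ω)) (b : Ω) (F : Finset (Ω × ℕ)) : ∃ α : Ω × ℕ, α.1 = b ∧
    α ∉ F ∧ (∀ g β, (g, .inl (α, β)) ∉ s) ∧ ¬ Occ s (.psi α) := by
  let f1 : Atom Ω → Finset (Ω × ℕ) := fun a => match a.2 with
    | .inl (t, _) => {t}
    | .inr _ => ∅
  let f2 : Atom Ω → Finset (Ω × ℕ) := fun a => match a.1 with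
    | .psi α => {α}
    | .phi _ _ _ => ∅
  let E : Finset (Ω × ℕ) := F ∪ (s.biUnion f1 ∪ s.biUnion f2)
  have hE : ∃ k : ℕ, (b, k) ∉ E := by
    by_contra hcon
    push Not at hcon
    have h1 : (Set.univ : Set ℕ).Finite := by
      refine Set.Finite.of_finite_image (f := fun k => (b, k))
        (E.finite_toSet.subset ?_) (fun k _ k' _ h => (Prod.mk.inj h).2)
      rintro _ ⟨k, _, rfl⟩
      exact hcon k
    exact Set.infinite_univ h1
  obtain ⟨k, hk⟩ := hE
  refine ⟨(b, k), rfl, fun h => hk (Finset.mem_union_left _ h), fun g β h => ?_, ?_⟩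
  · exact hk (Finset.mem_union_right _ (Finset.mem_union_left _
      (Finset.mem_biUnion.2 ⟨_, h, Finset.mem_singleton_self _⟩)))
  · rintro ⟨d, h⟩
    exact hk (Finset.mem_union_right _ (Finset.mem_union_right _
      (Finset.mem_biUnion.2 ⟨_, h, Finset.mem_singleton_self _⟩)))

/-- every odd element is covered -/
theorem exists_cover [LinearOrder Ω] {s : Finset (Atom Ω)} (hs : Good s) {z : Gr (Ω × ℕ)}
    (hz : par z = 1) : ∃ s', s ⊆ s' ∧ Good s' ∧ ∃ α, K s' (.psi α) (z + bs α) := by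
  by_cases hcov : ∃ β, K s (.psi β) (z + bs β)
  · exact ⟨s, Finset.Subset.refl _, hs, hcov⟩
  push Not at hcov
  have hz0 : z.support.Nonempty := by
    rw [Finsupp.support_nonempty_iff]
    rintro rfl
    rw [map_zero] at hz
    exact zero_ne_one hz
  obtain ⟨t0, ht0, hmax⟩ := Finset.exists_max_image z.support (fun t => t.1) hz0
  obtain ⟨α, hα1, hα2, hα3, hα4⟩ := exists_new s t0.1 z.support
  let X : Gr (Ω × ℕ) := z + bs α
  obtain ⟨c, hc1, hc2⟩ := exists_cross X 0 0 (fun _ _ => rfl) (fun _ => rfl)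
  have hsX : z.support ⊆ X.support := by
    intro t ht
    have hne : t ≠ α := fun h => hα2 (h ▸ ht)
    rw [Finsupp.mem_support_iff, Finsupp.add_apply, Finsupp.single_eq_of_ne hne, add_zero]
    exact Finsupp.mem_support_iff.1 ht
  have hαX : α ∈ X.support := by
    rw [Finsupp.mem_support_iff, Finsupp.add_apply, Finsupp.single_eq_same,
      Finsupp.notMem_support_iff.1 hα2, zero_add]
    exact one_ne_zero
  have hparX : par X = 0 := by
    rw [map_add, hz, par_bs]
    rfl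
  let s' : Finset (Atom Ω) := s ∪ X.support.image fun t => (.psi α, .inl (t, c t))
  have hss : s ⊆ s' := Finset.subset_union_left
  have hmem : ∀ g t b, (g, .inl (t, b)) ∈ s' → (g, .inl (t, b)) ∈ s ∨
      (g = .psi α ∧ t ∈ X.support ∧ b = c t) := by
    intro g t b h
    rcases Finset.mem_union.1 h with h | h
    · exact Or.inl h
    · obtain ⟨t', ht', h'⟩ := Finset.mem_image.1 h
      simp only [Prod.mk.injEq, Sum.inl.injEq] at h'
      obtain ⟨rfl, rfl, rfl⟩ := h'
      exact Or.inr ⟨rfl, ht', rfl⟩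
  have hK1 : ∀ g y, g ≠ .psi α → K s' g y → K s g y := by
    rintro g y hg ⟨β, h1, h2⟩
    refine ⟨β, fun t ht => ?_, h2⟩
    rcases hmem _ _ _ (h1 t ht) with h | h
    · exact h
    · exact absurd h.1 hg
  have hK2 : ∀ y, K s' (.psi α) y → y = 0 ∨ y = X := by
    rintro y ⟨β, h1, h2, h3⟩
    have h4 : ∀ t ∈ y.support, t ∈ X.support ∧ β t = c t := by
      intro t ht
      rcases hmem _ _ _ (h1 t ht) with h | h
      · exact absurd ⟨_, h⟩ hα4
      · exact h.2
    refine hc2 y (fun t ht => (h4 t ht).1) fun m _ => ?_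
    rw [← ev_congr (fun t ht => (h4 t ht).2), h3]
    rfl
  have hK3 : ∀ y, K s' (.psi α) (y + bs α) → y = bs α ∨ y = z := by
    intro y hy
    rcases hK2 _ hy with h | h
    · exact Or.inl (g_add_eq.1 h)
    · exact Or.inr (add_right_cancel h)
  have hno : ∀ β : Ω × ℕ, β ≠ α → ∀ y, (y = bs α ∨ y = z) → ¬ K s' (.psi β) (y + bs β) := by
    rintro β hβ y hy h
    have h1 := hK1 _ _ (fun h => hβ (by simpa using h)) h
    rcases hy with rfl | rfl
    · obtain ⟨γ, h2, _⟩ := h1
      refine hα3 _ _ (h2 α ?_)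
      rw [Finsupp.mem_support_iff, Finsupp.add_apply, Finsupp.single_eq_same,
        Finsupp.single_eq_of_ne hβ.symm, add_zero]
      exact one_ne_zero
    · exact hcov β h1
  refine ⟨s', hss, ⟨?_, ?_, ?_, ?_⟩, α, c, ?_, hparX, hc1⟩
  · intro g t b b' h h'
    rcases hmem _ _ _ h with h1 | ⟨h1, h2, h3⟩ <;> rcases hmem _ _ _ h' with h1' | ⟨h1', h2', h3'⟩
    · exact hs.fn _ _ _ _ h1 h1'
    · rw [h1'] at h1
      exact absurd ⟨_, h1⟩ hα4
    · rw [h1] at h1'
      exact absurd ⟨_, h1'⟩ hα4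
    · rw [h3, h3']
  · intro β γ y hne hβ hγ
    by_cases h1 : β = α
    · subst h1
      exact hno γ hne.symm y (hK3 y hβ) hγ
    · by_cases h2 : γ = α
      · subst h2
        exact hno β hne y (hK3 y hγ) hβ
      · exact hs.disj β γ y hne (hK1 _ _ (fun h => h1 (by simpa using h)) hβ)
          (hK1 _ _ (fun h => h2 (by simpa using h)) hγ)
  · intro β y hβ
    by_cases h1 : β = α
    · subst h1
      rcases hK3 y hβ with rfl | rfl
      · exact ⟨β, by simp, le_rfl⟩
      · exact ⟨t0, ht0, by rw [hα1]⟩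
    · exact hs.bd β y (hK1 _ _ (fun h => h1 (by simpa using h)) hβ)
  · intro g w n h
    have h1 : (g, .inr (w, n)) ∈ s := by
      rcases Finset.mem_union.1 h with h | h
      · exact h
      · obtain ⟨t', ht', h'⟩ := Finset.mem_image.1 h
        simp at h'
    refine (hs.pr _ _ _ h1).mono hss fun y hy => hK1 _ _ ?_ hy
    rintro rfl
    exact hα4 ⟨_, h1⟩
  · intro t ht
    exact Finset.mem_union_right _ (Finset.mem_image_of_mem _ ht)

/-- promises can be added -/
theorem exists_promise [LinearOrder Ω] [Nonempty Ω] {s : Finset (Atom Ω)} (hs : Good s)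
    (dat : Gr (Ω × ℕ) → ℕ → ℕ × (ℕ → Option (Option (Dt Ω))))
    (sym : Gr (Ω × ℕ) → ℕ → ℕ → Sy Ω) (x : Gr (Ω × ℕ)) (k : ℕ) (hsub : Sub dat sym x k s)
    (hfin : {h | Ph dat sym x k h}.Finite) :
    ∃ s', s ⊆ s' ∧ Good s' ∧ ∃ m, (.phi m dat sym, .inr (x, (dat x k).1)) ∈ s' := by
  obtain ⟨s1, h1, h2, h3, _, _⟩ := exists_dom hs
    (hfin.toFinset.image fun h => (h, (Classical.arbitrary Ω, 0)))
  have hocc : ∀ h, Ph dat sym x k h → Occ s1 h := by
    intro h hh
    obtain ⟨b, hb⟩ := h3 (h, (Classical.arbitrary Ω, 0))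
      (Finset.mem_image_of_mem _ (hfin.mem_toFinset.2 hh))
    exact ⟨_, hb⟩
  obtain ⟨m, hm⟩ : ∃ m, ¬ Occ s1 (.phi m dat sym) := by
    by_contra hcon
    push Not at hcon
    have h4 : (Set.univ : Set ℕ).Finite := by
      refine Set.Finite.of_finite_image (f := fun m => (.phi m dat sym : Sy Ω))
        ((s1.image Prod.fst).finite_toSet.subset ?_) (fun k _ k' _ h => by
          simp only [Sy.phi.injEq] at h
          exact h.1)
      rintro _ ⟨m, _, rfl⟩
      obtain ⟨d, hd⟩ := hcon m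
      exact Finset.mem_coe.2 (Finset.mem_image.2 ⟨_, hd, rfl⟩)
    exact Set.infinite_univ h4
  let s' : Finset (Atom Ω) := insert (.phi m dat sym, .inr (x, (dat x k).1)) s1
  have hss : s1 ⊆ s' := Finset.subset_insert _ _
  have hinl : ∀ g t b, (g, .inl (t, b)) ∈ s' → (g, .inl (t, b)) ∈ s1 := by
    intro g t b h
    rcases Finset.mem_insert.1 h with h | h
    · simp at h
    · exact h
  have hK : ∀ g y, K s' g y → K s1 g y := by
    rintro g y ⟨β, h1, h2⟩
    exact ⟨β, fun t ht => hinl _ _ _ (h1 t ht), h2⟩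
  refine ⟨s', h1.trans hss, ⟨?_, ?_, ?_, ?_⟩, m, Finset.mem_insert_self _ _⟩
  · intro g t b b' h h'
    exact h2.fn _ _ _ _ (hinl _ _ _ h) (hinl _ _ _ h')
  · intro α β z hne hα hβ
    exact h2.disj _ _ _ hne (hK _ _ hα) (hK _ _ hβ)
  · intro α z hα
    exact h2.bd _ _ (hK _ _ hα)
  · intro g w n h
    rcases Finset.mem_insert.1 h with h | h
    · simp only [Prod.mk.injEq, Sum.inr.injEq] at h
      obtain ⟨rfl, rfl, rfl⟩ := h
      refine ⟨m, dat, sym, rfl, ⟨k, rfl, (hsub.mono h1).mono hss⟩, fun y hy => ?_⟩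
      have hy0 := K_of_not_occ hm (hK _ _ hy)
      subst hy0
      refine ⟨w, k, rfl, (hsub.mono h1).mono hss, fun h hh => ⟨(hocc h hh).mono hss, ?_⟩⟩
      rw [add_zero, g_add_self]
      exact K_zero _ _
    · exact (h2.pr _ _ _ h).mono hss (hK g)

end Pool.Agent.KS6_46.RF
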