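import Mathlib
import Pool.Graph.R_seed8.Helper669.Forcing

/-!
# The combinatorial statement and its forcing version

`Y →₀ ZMod 2` is the group of all finite subsets of `Y`. A map `v : Y → (ℕ →₀ ZMod 2)` gives a
subgroup of it, the set of all `y` of even size such that the sum of `v t` for `t` in `y` is
zero. `PhiFor Y S ψ` is a combinatorial statement about a family of such maps indexed by `S`. The
sentence `PhiHolds P Y S ψ` of the forcing language is its literal translation: relations and
functions become names for them. Finite subsets of ground model sets and functions between finite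
ground model sets and ground model sets are in the ground model.
-/

set_option autoImplicit false

namespace Pool.Agent.KS6_46.RF

open Cardinal Pool.Agent.Helper669.Forcing

section Ambient

variable {Y S : Type}

/-- The subgroup given by `v g`: all finite sets of even size with sum zero. -/
def InKer (v : S → Y → ℕ →₀ ZMod 2) (g : S) (y : Y →₀ ZMod 2) : Prop :=
  Even y.support.card ∧ ∑ t ∈ y.support, v g t = 0

/-- Countably many members of the family refine every assignment of colours and neighbourhoods: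
if each `x` has a colour `n` with `C x n` and a finite set `Φ` with `U x Φ` (which stands for the
neighbourhood of `x` consisting of all `z` with `z + x` in the subgroups given by `g ∈ Φ`), then
for some sequence `σ` and each `x` there is `m` such that each `x + y` with `y` in the subgroup
given by `σ m` belongs to the neighbourhood of some `x'` which has a colour of `x`. -/
def Refine (v : S → Y → ℕ →₀ ZMod 2) : Prop :=
  ∀ (C : (Y →₀ ZMod 2) → ℕ → Prop) (U : (Y →₀ ZMod 2) → Finset S → Prop),
    ((∀ x, ∃ n, C x n) ∧ ∀ x, ∃ Φ, U x Φ) →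
      ∃ σ : ℕ → S, ∀ x, ∃ m, ∀ y, InKer v (σ m) y → ∃ x' n Φ, C x n ∧ C x' n ∧ U x' Φ ∧
        ∀ g ∈ Φ, InKer v g (x + y + x')

/-- `Y` is uncountable and there is a family of maps `v g` such that the translations of the
subgroups given by `v (ψ α)` by the points `α` are pairwise disjoint and cover all finite sets of
odd size, and `Refine v` holds. -/
def PhiFor (Y S : Type) (ψ : Y → S) : Prop :=
  Nonempty Y ∧ (¬ ∃ f : ℕ → Y, Function.Surjective f) ∧
    ∃ v : S → Y → ℕ →₀ ZMod 2,
      (∀ x : Y →₀ ZMod 2, ¬ Even x.support.card → ∃ α, InKer v (ψ α) (x + Finsupp.single α 1)) ∧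
      (∀ (x : Y →₀ ZMod 2) (α β : Y), InKer v (ψ α) (x + Finsupp.single α 1) ∧
        InKer v (ψ β) (x + Finsupp.single β 1) → α = β) ∧ Refine v

end Ambient

section Names

variable {P : Type} [Preorder P]

variable (P) in
/-- In the extension there is no function from `X` onto `Y`. -/
def NoSurjN (X Y : Type) : Set P :=
  fnot (fex fun R : X → Y → Set P => fand (IsFun R) (IsOnto R))

variable {Y S : Type}

/-- Forcing version of `InKer`. -/
def InKerN (V : S → Y → (ℕ →₀ ZMod 2) → Set P) (g : S) (y : Y →₀ ZMod 2) : Set P :=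
  fand (fground (Even y.support.card)) (fex fun β : y.support → (ℕ →₀ ZMod 2) =>
    fand (fall fun t => meets (V g t.1 (β t))) (fground (∑ t, β t = 0)))

/-- Forcing version of `Refine`. -/
def RefineN (V : S → Y → (ℕ →₀ ZMod 2) → Set P) : Set P :=
  fall fun C : (Y →₀ ZMod 2) → ℕ → Set P => fall fun U : (Y →₀ ZMod 2) → Finset S → Set P =>
    fimp (fand (fall fun x => fex fun n => meets (C x n)) (fall fun x => fex fun Φ => meets (U x Φ)))
      (fex fun σ : ℕ → S → Set P => fand (IsFun σ)
        (fall fun x => fex fun m => fall fun y => fall fun g =>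
          fimp (fand (meets (σ m g)) (InKerN V g y))
            (fex fun x' => fex fun n => fex fun Φ => fand (meets (C x n)) (fand (meets (C x' n))
              (fand (meets (U x' Φ)) (fall fun g' => fall fun _ : g' ∈ Φ =>
                InKerN V g' (x + y + x')))))))

variable (P) in
/-- The sentence `PhiFor Y S ψ` of the forcing language. -/
def PhiHolds (Y S : Type) (ψ : Y → S) : Set P :=
  fand (fground (Nonempty Y)) (fand (NoSurjN P ℕ Y)
    (fex fun V : S → Y → (ℕ →₀ ZMod 2) → Set P =>
      fand (fall fun g => IsFun (V g))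
      (fand (fall fun x : Y →₀ ZMod 2 => fall fun _ : ¬ Even x.support.card =>
        fex fun α => InKerN V (ψ α) (x + Finsupp.single α 1))
      (fand (fall fun x : Y →₀ ZMod 2 => fall fun α => fall fun β =>
        fimp (fand (InKerN V (ψ α) (x + Finsupp.single α 1))
          (InKerN V (ψ β) (x + Finsupp.single β 1))) (fground (α = β)))
      (RefineN V)))))

end Names

/-! ### For the trivial forcing the sentence is the plain statement -/

section

variable {φ ψ : Set Unit} {u : Unit}

theorem triv_fnot : u ∈ fnot φ ↔ u ∉ φ := ⟨fun h => h u le_rfl, fun h _ _ => h⟩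

theorem triv_fand : u ∈ fand φ ψ ↔ u ∈ φ ∧ u ∈ ψ := Iff.rfl

theorem triv_fall {ι : Sort*} {φ : ι → Set Unit} : u ∈ fall φ ↔ ∀ i, u ∈ φ i := Iff.rfl

theorem triv_fground {h : Prop} : u ∈ fground (P := Unit) h ↔ h := Iff.rfl

theorem triv_fex {ι : Sort*} {φ : ι → Set Unit} : u ∈ fex φ ↔ ∃ i, u ∈ φ i := by
  rw [mem_fex]
  constructor
  · intro h
    obtain ⟨_, _, i, hi⟩ := h u le_rfl
    exact ⟨i, hi⟩
  · rintro ⟨i, hi⟩ _ _
    exact ⟨u, le_rfl, i, hi⟩

theorem triv_fimp : u ∈ fimp φ ψ ↔ (u ∈ φ → u ∈ ψ) := by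
  rw [mem_fimp]
  constructor
  · intro h h'
    obtain ⟨_, _, hi⟩ := h u le_rfl h'
    exact hi
  · intro h _ _ h'
    exact ⟨u, le_rfl, h h'⟩

theorem triv_meets : u ∈ meets φ ↔ u ∈ φ := by
  constructor
  · intro h
    obtain ⟨_, _, s, hs, _⟩ := h u le_rfl
    exact hs
  · intro h _ _
    exact ⟨u, le_rfl, u, h, le_rfl⟩

end

theorem triv_NoSurjN {X Y : Type} {u : Unit} :
    u ∈ NoSurjN Unit X Y ↔ ¬ ∃ f : X → Y, Function.Surjective f := by
  simp only [NoSurjN, IsFun, IsOnto, triv_fall, triv_fex, triv_fand, triv_fground, triv_meets,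
    triv_fimp, triv_fnot]
  refine not_congr ⟨?_, ?_⟩
  · rintro ⟨R, ⟨h1, h2⟩, h3⟩
    choose f hf using h1
    refine ⟨f, fun y => ?_⟩
    obtain ⟨x, hx⟩ := h3 y
    exact ⟨x, h2 x _ _ ⟨hf x, hx⟩⟩
  · rintro ⟨f, hf⟩
    refine ⟨fun x y => {_u | f x = y}, ⟨fun x => ⟨f x, rfl⟩, ?_⟩, fun y => ?_⟩
    · rintro x y y' ⟨h1, h2⟩
      have e1 : f x = y := h1
      have e2 : f x = y' := h2
      exact e1.symm.trans e2
    · obtain ⟨x, hx⟩ := hf y
      exact ⟨x, hx⟩

section

variable {Y S : Type} {u : Unit}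

theorem triv_InKerN {V : S → Y → (ℕ →₀ ZMod 2) → Set Unit} {v : S → Y → ℕ →₀ ZMod 2}
    (h : ∀ g t b, u ∈ V g t b ↔ v g t = b) {g : S} {y : Y →₀ ZMod 2} :
    u ∈ InKerN V g y ↔ InKer v g y := by
  simp only [InKerN, InKer, triv_fand, triv_fground, triv_fex, triv_fall, triv_meets, h]
  refine and_congr_right fun _ => ?_
  constructor
  · rintro ⟨β, h1, h2⟩
    rw [← Finset.sum_attach, ← h2, Finset.univ_eq_attach]
    exact Finset.sum_congr rfl fun t _ => h1 t
  · intro h1
    refine ⟨fun t => v g t.1, fun _ => rfl, ?_⟩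
    rw [Finset.univ_eq_attach, Finset.sum_attach y.support (v g), h1]

theorem triv_RefineN {V : S → Y → (ℕ →₀ ZMod 2) → Set Unit} {v : S → Y → ℕ →₀ ZMod 2}
    (h : ∀ g t b, u ∈ V g t b ↔ v g t = b) : u ∈ RefineN V ↔ Refine v := by
  simp only [RefineN, Refine, IsFun, triv_fall, triv_fand, triv_fex, triv_meets, triv_fimp,
    triv_InKerN h, triv_fground]
  constructor
  · intro h1 C U h2
    obtain ⟨σ, ⟨h3, h4⟩, h5⟩ := h1 (fun x n => {_u | C x n}) (fun x Φ => {_u | U x Φ}) h2
    choose σ' hσ' using h3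
    refine ⟨σ', fun x => ?_⟩
    obtain ⟨m, hm⟩ := h5 x
    exact ⟨m, fun y hy => hm y (σ' m) ⟨hσ' m, hy⟩⟩
  · intro h1 C U h2
    obtain ⟨σ, h3⟩ := h1 (fun x n => u ∈ C x n) (fun x Φ => u ∈ U x Φ) h2
    refine ⟨fun m g => {_u | σ m = g}, ⟨fun m => ⟨σ m, rfl⟩, ?_⟩, fun x => ?_⟩
    · rintro m g g' ⟨e1, e2⟩
      have e3 : σ m = g := e1
      have e4 : σ m = g' := e2
      exact e3.symm.trans e4
    · obtain ⟨m, hm⟩ := h3 x
      refine ⟨m, ?_⟩
      rintro y g ⟨e1, hy⟩
      have e3 : σ m = g := e1
      subst e3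
      exact hm y hy

/-- For the trivial forcing the sentence is the plain statement. -/
theorem triv_PhiHolds {ψ : Y → S} : u ∈ PhiHolds Unit Y S ψ ↔ PhiFor Y S ψ := by
  simp only [PhiHolds, PhiFor, triv_fand, triv_NoSurjN, triv_fex, triv_fground]
  refine and_congr_right fun _ => and_congr_right fun _ => ?_
  constructor
  · rintro ⟨V, h1, h2, h3, h5⟩
    have h1' : ∀ g t, ∃ b, u ∈ V g t b := by
      intro g t
      have h6 := (h1 g).1 t
      rw [triv_fex] at h6
      obtain ⟨b, hb⟩ := h6
      exact ⟨b, triv_meets.1 hb⟩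
    choose v hv using h1'
    have hV : ∀ g t b, u ∈ V g t b ↔ v g t = b := by
      intro g t b
      constructor
      · intro h6
        have h7 := (h1 g).2 t (v g t) b
        rw [triv_fimp] at h7
        exact h7 ⟨triv_meets.2 (hv g t), triv_meets.2 h6⟩
      · rintro rfl
        exact hv g t
    refine ⟨v, ?_, ?_, (triv_RefineN hV).1 h5⟩
    · simp only [triv_fall, triv_fex, triv_InKerN hV] at h2
      exact h2
    · simp only [triv_fall, triv_fimp, triv_fand, triv_InKerN hV, triv_fground] at h3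
      exact h3
  · rintro ⟨v, h2, h3, h5⟩
    have hV : ∀ g t b, u ∈ (fun g t b => {_u | v g t = b} : S → Y → (ℕ →₀ ZMod 2) → Set Unit) g t b
        ↔ v g t = b := fun _ _ _ => Iff.rfl
    refine ⟨fun g t b => {_u | v g t = b}, ?_, ?_, ?_, (triv_RefineN hV).2 h5⟩
    · intro g
      refine ⟨fun t => triv_fex.2 ⟨v g t, triv_meets.2 rfl⟩, fun t b b' => triv_fimp.2 ?_⟩
      rintro ⟨e1, e2⟩
      have e3 : v g t = b := triv_meets.1 e1
      have e4 : v g t = b' := triv_meets.1 e2
      exact e3.symm.trans e4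
    · simp only [triv_fall, triv_fex, triv_InKerN hV]
      exact h2
    · simp only [triv_fall, triv_fimp, triv_fand, triv_InKerN hV, triv_fground]
      exact h3

end

end Pool.Agent.KS6_46.RF
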