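import Pool.Agent.KS6_46.RF.Ccc2
import Pool.Agent.KS6_46.RF.Dense
import Pool.Agent.KS6_46.RF.Sent
import Pool.Graph.R_seed8.W684.FM.Ambient

/-!
# The sentence is forced
-/

set_option autoImplicit false

namespace Pool.Agent.KS6_46.RF

open Classical Cardinal Pool.Agent.Helper669.Forcing Pool.Agent.W684.FM

variable {Ω : Type} [LinearOrder Ω]

variable (Ω) in
/-- the poset -/
structure PP : Type where
  /-- the condition -/
  c : Finset (Atom Ω)
  /-- it is good -/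
  v : Good c

instance : Preorder (PP Ω) where
  le p q := q.1 ⊆ p.1
  le_refl p := Finset.Subset.refl _
  le_trans p q r h1 h2 := Finset.Subset.trans h2 h1

theorem PP.le_def {p q : PP Ω} : p ≤ q ↔ q.1 ⊆ p.1 := Iff.rfl

instance : Nonempty (PP Ω) := ⟨⟨∅, good_empty⟩⟩

theorem pccc (hΩ : ∀ β : Ω, (Set.Iic β).Countable) : PCCC (PP Ω) := by
  intro A hA
  have hinj : Function.Injective (PP.c : PP Ω → Finset (Atom Ω)) := by
    rintro ⟨p, hp⟩ ⟨q, hq⟩ h
    simp only at h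
    subst h
    rfl
  have h1 : (PP.c '' A : Set (Finset (Atom Ω))).Countable := by
    apply ccc_good hΩ
    · rintro _ ⟨p, _, rfl⟩
      exact p.2
    · rintro _ ⟨p, hp, rfl⟩ _ ⟨q, hq, rfl⟩ hne ⟨r, hr, h1, h2⟩
      exact hA p hp q hq (fun h => hne (by rw [h])) ⟨⟨r, hr⟩, h1, h2⟩
  exact Set.countable_of_injective_of_countable_image hinj.injOn h1

/-- the name of the family of maps -/
def VN (g : Sy Ω) (t : Ω × ℕ) (b : BB) : Set (PP Ω) := {p | (g, .inl (t, b)) ∈ p.c}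

theorem down_VN (g : Sy Ω) (t : Ω × ℕ) (b : BB) : Down (VN g t b) := fun _ hp _ hq => hq hp

theorem par_even {Y : Type} (y : Gr Y) : par y = 0 ↔ Even y.support.card := by
  have h : par y = (y.support.card : ZMod 2) := by
    rw [par, Finsupp.linearCombination_apply, Finsupp.sum, Finset.cast_card]
    refine Finset.sum_congr rfl fun t ht => ?_
    rw [z2_ne.1 (Finsupp.mem_support_iff.1 ht), one_smul]
  rw [h, ZMod.natCast_eq_zero_iff_even]

theorem down_InKerN {Y S P : Type} [Preorder P] (V : S → Y → (ℕ →₀ ZMod 2) → Set P) (g : S)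
    (y : Y →₀ ZMod 2) : Down (InKerN V g y) := down_fand (down_fground _) (down_fex _)

theorem InKerN_of_K {p : PP Ω} {g : Sy Ω} {y : Gr (Ω × ℕ)} (h : K p.c g y) :
    p ∈ InKerN VN g y := by
  obtain ⟨β, h1, h2, h3⟩ := h
  refine ⟨(par_even y).1 h2, ?_⟩
  refine mem_fex_of_mem (fun t => β t.1) (down_fand (down_fall fun _ => down_meets _)
    (down_fground _)) ⟨fun t => meets_of_mem (h1 t.1 t.2), ?_⟩
  show ∑ t : y.support, β t.1 = 0
  rw [Finset.univ_eq_attach, Finset.sum_attach y.support β, ← ev_eq_sum, h3]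

theorem exists_K {p : PP Ω} {g : Sy Ω} {y : Gr (Ω × ℕ)} (h : p ∈ InKerN VN g y) :
    ∃ q ≤ p, K q.c g y := by
  obtain ⟨hpar, h⟩ := h
  obtain ⟨q, hq, β, h1, h2⟩ := mem_fex.1 h p le_rfl
  obtain ⟨s, hs1, hs2, hs3, _, _⟩ := exists_dom q.2 (y.support.image fun t => (g, t))
  refine ⟨⟨s, hs2⟩, le_trans (PP.le_def.2 hs1) hq,
    fun t => if h : t ∈ y.support then β ⟨t, h⟩ else 0, fun t ht => ?_, (par_even y).2 hpar, ?_⟩
  · show (g, Sum.inl (t, if h : t ∈ y.support then β ⟨t, h⟩ else 0)) ∈ s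
    rw [dif_pos ht]
    obtain ⟨b, hb⟩ := hs3 (g, t) (Finset.mem_image_of_mem _ ht)
    obtain ⟨r, hr, r', hr', hrr⟩ := h1 ⟨t, ht⟩ ⟨s, hs2⟩ hs1
    rw [← r.2.fn _ _ _ _ (hr hb) (hrr hr')]
    exact hb
  · have h3 : ∑ t : y.support, β t = 0 := h2
    rw [ev_eq_sum, ← Finset.sum_attach]
    rw [Finset.univ_eq_attach] at h3
    rw [← h3]
    refine Finset.sum_congr rfl fun t _ => ?_
    rw [dif_pos t.2]

theorem isFun_VN (g : Sy Ω) (p : PP Ω) : p ∈ IsFun (VN g) := by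
  refine ⟨fun t => mem_fex.2 fun q _ => ?_, fun t b b' => mem_fimp.2 ?_⟩
  · obtain ⟨s, hs1, hs2, hs3, _, _⟩ := exists_dom q.2 {(g, t)}
    obtain ⟨b, hb⟩ := hs3 (g, t) (Finset.mem_singleton_self _)
    exact ⟨⟨s, hs2⟩, hs1, b, meets_of_mem hb⟩
  · rintro q _ ⟨h1, h2⟩
    refine ⟨q, le_rfl, ?_⟩
    obtain ⟨r, hr, h3⟩ := exists_of_meets (down_VN _ _ _) h1
    obtain ⟨r', hr', h4⟩ := exists_of_meets (down_VN _ _ _) (down_meets _ _ h2 _ hr)
    exact r'.2.fn _ _ _ _ (hr' h3) h4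

theorem noSurj_forced {P : Type} [Preorder P] (hP : PCCC P) {X Y : Type} (h : #X * ℵ₀ < #Y)
    (p : P) : p ∈ NoSurjN P X Y := by
  intro q _ hq
  obtain ⟨r, _, R, hR1, hR2⟩ := mem_fex.1 hq q le_rfl
  have h1 : ∀ y : Y, ∃ s ≤ r, ∃ x : X, s ∈ meets (R x y) := fun y =>
    mem_fex.1 (hR2 y) r le_rfl
  choose f hf x hx using h1
  obtain ⟨y, y', hne, hz, s, hs1, hs2⟩ := hP.exists_compat_same (X := Y) (Z := X) h f x
  apply hne
  refine IsFun.unique (down_IsFun R r hR1 s (hs1.trans (hf y))) (down_meets _ _ (hx y) s hs1) ?_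
  rw [hz]
  exact down_meets _ _ (hx y') s hs2

omit [LinearOrder Ω] in
/-- coding of finite sets of atoms and symbols -/
theorem exists_code [Nonempty Ω] (r : Finset (Atom Ω)) (Φ : Finset (Sy Ω)) :
    ∃ (d : ℕ → Option (Option (Dt Ω))) (h : ℕ → Sy Ω),
      (∀ s : Finset (Atom Ω), (∀ i d', d i = some (some d') → (h i, d') ∈ s) ↔ r ⊆ s) ∧
      ∀ g, (∃ i, d i = some none ∧ h i = g) ↔ g ∈ Φ := by
  have h0 : Nonempty (Sy Ω) := ⟨.psi (Classical.arbitrary Ω, 0)⟩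
  have h1 : ∃ e : ℕ → Option (Atom Ω ⊕ Sy Ω), ∀ a : Atom Ω ⊕ Sy Ω,
      a ∈ r.disjSum Φ ↔ ∃ i, e i = some a := by
    rcases (r.disjSum Φ).eq_empty_or_nonempty with h | h
    · exact ⟨fun _ => none, fun a => by simp [h]⟩
    · obtain ⟨e, he⟩ := (r.disjSum Φ).countable_toSet.exists_eq_range h
      refine ⟨fun i => some (e i), fun a => ?_⟩
      rw [← Finset.mem_coe, he]
      simp
  obtain ⟨e, he⟩ := h1
  let d : ℕ → Option (Option (Dt Ω)) := fun i => match e i with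
    | none => none
    | some (.inl a) => some (some a.2)
    | some (.inr _) => some none
  let h : ℕ → Sy Ω := fun i => match e i with
    | none => Classical.choice h0
    | some (.inl a) => a.1
    | some (.inr g) => g
  refine ⟨d, h, fun s => ⟨fun H a ha => ?_, fun H i d' hd => ?_⟩, fun g => ⟨?_, fun hg => ?_⟩⟩
  · obtain ⟨i, hi⟩ := (he (.inl a)).1 (Finset.inl_mem_disjSum.2 ha)
    have h2 : d i = some (some a.2) := by simp only [d, hi]
    have h3 : h i = a.1 := by simp only [h, hi]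
    have h4 := H i a.2 h2
    rwa [h3] at h4
  · rcases hi : e i with _ | (a | g)
    · simp only [d, hi] at hd
      exact absurd hd (by simp)
    · have h3 : h i = a.1 := by simp only [h, hi]
      have h5 : d i = some (some a.2) := by simp only [d, hi]
      rw [h5] at hd
      simp only [Option.some.injEq] at hd
      rw [h3, ← hd]
      exact H (Finset.inl_mem_disjSum.1 ((he _).2 ⟨i, hi⟩))
    · simp only [d, hi] at hd
      exact absurd hd (by simp)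
  · rintro ⟨i, hd, hg⟩
    rcases hi : e i with _ | (a | g')
    · simp only [d, hi] at hd
      exact absurd hd (by simp)
    · simp only [d, hi] at hd
      exact absurd hd (by simp)
    · have h3 : h i = g' := by simp only [h, hi]
      rw [← hg, h3]
      exact Finset.inr_mem_disjSum.1 ((he _).2 ⟨i, hi⟩)
  · obtain ⟨i, hi⟩ := (he (.inr g)).1 (Finset.inr_mem_disjSum.2 hg)
    exact ⟨i, by simp only [d, hi], by simp only [h, hi]⟩

/-- names for colours and neighbourhoods -/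
theorem exists_name [Nonempty Ω] (hP : PCCC (PP Ω)) (C : Gr (Ω × ℕ) → ℕ → Set (PP Ω))
    (U : Gr (Ω × ℕ) → Finset (Sy Ω) → Set (PP Ω)) (q : PP Ω)
    (hC : q ∈ fall fun x => fex fun n => meets (C x n))
    (hU : q ∈ fall fun x => fex fun Φ => meets (U x Φ)) :
    ∃ (dat : Gr (Ω × ℕ) → ℕ → ℕ × (ℕ → Option (Option (Dt Ω)))) (sym : Gr (Ω × ℕ) → ℕ → ℕ → Sy Ω),
      (∀ x k, {h | Ph dat sym x k h}.Finite) ∧
      (∀ x k (r : PP Ω), Sub dat sym x k r.c → r ∈ meets (C x (dat x k).1) ∧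
        ∃ Φ : Finset (Sy Ω), r ∈ meets (U x Φ) ∧ ∀ h, h ∈ Φ → Ph dat sym x k h) ∧
      ∀ x, ∀ r ≤ q, ∃ r' ≤ r, ∃ k, Sub dat sym x k r'.c := by
  have h1 : ∀ x, ∃ a : ℕ → PP Ω, ∃ n : ℕ → ℕ, ∃ Φ : ℕ → Finset (Sy Ω),
      (∀ k, a k ∈ meets (C x (n k)) ∧ a k ∈ meets (U x (Φ k))) ∧
      ∀ r ≤ q, ∃ r' ≤ r, ∃ k, r' ≤ a k := by
    intro x
    let D : Set (PP Ω) := {r | ∃ n Φ, r ∈ meets (C x n) ∧ r ∈ meets (U x Φ)}
    have hD : Down D := by
      rintro r ⟨n, Φ, h1, h2⟩ r' hr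
      exact ⟨n, Φ, down_meets _ _ h1 _ hr, down_meets _ _ h2 _ hr⟩
    have hdense : ∀ r ≤ q, ∃ r' ≤ r, r' ∈ D := by
      intro r hr
      obtain ⟨r1, hr1, n, h1⟩ := mem_fex.1 (hC x) r hr
      obtain ⟨r2, hr2, Φ, h2⟩ := mem_fex.1 (hU x) r1 (hr1.trans hr)
      exact ⟨r2, hr2.trans hr1, n, Φ, down_meets _ _ h1 _ hr2, h2⟩
    obtain ⟨A, hA1, hA2, hA3⟩ := exists_predense hP D hD
    have hne : A.Nonempty := by
      obtain ⟨r, _, hr⟩ := hdense q le_rfl
      obtain ⟨a, ha, _⟩ := hA3 r hr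
      exact ⟨a, ha⟩
    obtain ⟨a, ha⟩ := hA1.exists_eq_range hne
    have h2 : ∀ k, ∃ n Φ, a k ∈ meets (C x n) ∧ a k ∈ meets (U x Φ) := by
      intro k
      have : a k ∈ D := hA2 (by rw [ha]; exact ⟨k, rfl⟩)
      exact this
    choose n Φ h2 using h2
    refine ⟨a, n, Φ, h2, fun r hr => ?_⟩
    obtain ⟨r1, hr1, h3⟩ := hdense r hr
    obtain ⟨b, hb, r2, h4, h5⟩ := hA3 r1 h3
    rw [ha] at hb
    obtain ⟨k, rfl⟩ := hb
    exact ⟨r2, h4.trans hr1, k, h5⟩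
  choose a n Φ h2 h3 using h1
  choose d h hd1 hd2 using fun (x : Gr (Ω × ℕ)) (k : ℕ) => exists_code (a x k).c (Φ x k)
  refine ⟨fun x k => (n x k, d x k), h, fun x k => ?_, fun x k r hr => ?_, fun x r hr => ?_⟩
  · refine (Φ x k).finite_toSet.subset fun g hg => ?_
    exact Finset.mem_coe.2 ((hd2 x k g).1 hg)
  · have h4 : r ≤ a x k := (hd1 x k r.c).1 hr
    exact ⟨down_meets _ _ (h2 x k).1 _ h4, Φ x k, down_meets _ _ (h2 x k).2 _ h4,
      fun g hg => (hd2 x k g).2 hg⟩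
  · obtain ⟨r', hr', k, h4⟩ := h3 x r hr
    exact ⟨r', hr', k, (hd1 x k r'.c).2 h4⟩

theorem refine_forced [Nonempty Ω] (hP : PCCC (PP Ω)) (p : PP Ω) :
    p ∈ RefineN (VN : Sy Ω → Ω × ℕ → (ℕ →₀ ZMod 2) → Set (PP Ω)) := by
  intro C U
  rw [mem_fimp]
  rintro q _ ⟨hC, hU⟩
  obtain ⟨dat, sym, hfin, hsub, hdense⟩ := exists_name hP C U q hC hU
  refine ⟨q, le_rfl, ?_⟩
  have hdown : Down (fand (IsFun fun (m : ℕ) (g : Sy Ω) => {_p : PP Ω | Sy.phi m dat sym = g})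
      (fall fun x => fex fun m => fall fun y => fall fun g =>
        fimp (fand (meets {_p : PP Ω | Sy.phi m dat sym = g}) (InKerN VN g y))
          (fex fun x' => fex fun n => fex fun Φ => fand (meets (C x n)) (fand (meets (C x' n))
            (fand (meets (U x' Φ)) (fall fun g' => fall fun _ : g' ∈ Φ =>
              InKerN VN g' (x + y + x'))))))) :=
    down_fand (down_IsFun _) (down_fall fun _ => down_fex _)
  refine mem_fex_of_mem (fun m g => {_p | .phi m dat sym = g}) hdown ?_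
  refine ⟨⟨fun m => ?_, fun m g g' => mem_fimp.2 ?_⟩, fun x => mem_fex.2 fun q' hq' => ?_⟩
  · exact mem_fex_of_mem (.phi m dat sym) (down_meets _) (meets_of_mem rfl)
  · rintro r _ ⟨h1, h2⟩
    obtain ⟨_, _, _, h3, _⟩ := h1 r le_rfl
    obtain ⟨_, _, _, h4, _⟩ := h2 r le_rfl
    have e3 : Sy.phi m dat sym = g := h3
    have e4 : Sy.phi m dat sym = g' := h4
    exact ⟨r, le_rfl, e3.symm.trans e4⟩
  · obtain ⟨r, hr, k, hk⟩ := hdense x q' hq'
    obtain ⟨s, hs1, hs2, m, hm⟩ := exists_promise r.2 dat sym x k hk (hfin x k)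
    refine ⟨⟨s, hs2⟩, le_trans (PP.le_def.2 hs1) hr, m, fun y g => mem_fimp.2 ?_⟩
    rintro r1 hr1 ⟨hg, hy⟩
    obtain ⟨_, _, _, h3, _⟩ := hg r1 le_rfl
    have e3 : Sy.phi m dat sym = g := h3
    subst e3
    obtain ⟨r2, hr2, hK⟩ := exists_K hy
    have hm2 : ((.phi m dat sym : Sy Ω), (.inr (x, (dat x k).1) : Dt Ω)) ∈ r2.c :=
      (le_trans hr2 hr1 : r2 ≤ ⟨s, hs2⟩) hm
    obtain ⟨m', dat', sym', heq, ⟨k1, hk1, hsub1⟩, hkept⟩ := r2.2.pr _ _ _ hm2
    simp only [Sy.phi.injEq] at heq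
    obtain ⟨rfl, rfl, rfl⟩ := heq
    obtain ⟨x', k', h4, h5, h6⟩ := hkept y hK
    refine ⟨r2, hr2, ?_⟩
    have h7 := (hsub x k1 r2 hsub1).1
    obtain ⟨h8, Φ, h9, h10⟩ := hsub x' k' r2 h5
    rw [hk1] at h7
    rw [h4] at h8
    refine mem_fex_of_mem x' (down_fex _) (mem_fex_of_mem (dat x k).1 (down_fex _)
      (mem_fex_of_mem Φ (down_fand (down_meets _) (down_fand (down_meets _)
        (down_fand (down_meets _) (down_fall fun _ => down_fall fun _ => down_InKerN _ _ _))))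
        ⟨h7, h8, h9, fun g' hg' => ?_⟩))
    exact InKerN_of_K (h6 g' (h10 g' hg')).2

/-- the sentence is forced -/
theorem phi_forced [Nonempty Ω] (hΩ : ∀ β : Ω, (Set.Iic β).Countable) (hunc : ℵ₀ < #Ω)
    (p : PP Ω) : p ∈ PhiHolds (PP Ω) (Ω × ℕ) (Sy Ω) .psi := by
  have hP := pccc hΩ
  have hne : ∀ x : Gr (Ω × ℕ), ¬ Even x.support.card → par x = 1 := fun x hx =>
    z2_ne.1 fun h => hx ((par_even x).1 h)
  refine ⟨⟨(Classical.arbitrary Ω, 0)⟩, noSurj_forced hP ?_ p, ?_⟩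
  · rw [mk_nat, aleph0_mul_aleph0]
    refine lt_of_lt_of_le hunc ?_
    exact Cardinal.mk_le_of_injective (f := fun a : Ω => (a, 0)) fun a b h => (Prod.mk.inj h).1
  refine mem_fex_of_mem VN ?_ ⟨fun g => isFun_VN g p, fun x hx => mem_fex.2 fun q _ => ?_,
    fun x α β => mem_fimp.2 ?_, refine_forced hP p⟩
  · exact down_fand (down_fall fun _ => down_IsFun _) (down_fand (down_fall fun _ =>
      down_fall fun _ => down_fex _) (down_fand (down_fall fun _ => down_fall fun _ =>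
      down_fall fun _ => down_fimp _ _) (down_fall fun _ => down_fall fun _ => down_fimp _ _)))
  · obtain ⟨s, hs1, hs2, α, hα⟩ := exists_cover q.2 (hne x hx)
    exact ⟨⟨s, hs2⟩, hs1, α, InKerN_of_K hα⟩
  · rintro q _ ⟨h1, h2⟩
    refine ⟨q, le_rfl, ?_⟩
    obtain ⟨q1, hq1, h3⟩ := exists_K h1
    obtain ⟨q2, hq2, h4⟩ := exists_K (down_InKerN _ _ _ _ h2 _ hq1)
    show α = β
    by_contra hne
    exact q2.2.disj α β x hne (h3.mono fun d hd => hq2 hd) h4

theorem exists_forcing : ∃ (Y S : Type) (ψ : Y → S) (P : Type) (_ : Preorder P), Nonempty P ∧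
    ∀ p : P, p ∈ CardinalsPreserved.{0, 0} P ∧ p ∈ PhiHolds P Y S ψ := by
  let Ω : Type := (ℵ₁).ord.ToType
  have h1 : ∀ β : Ω, (Set.Iic β).Countable := by
    intro β
    have h2 : (Set.Iio β).Countable := by
      rw [← Cardinal.le_aleph0_iff_set_countable, ← Order.lt_succ_iff, Cardinal.succ_aleph0]
      refine (Cardinal.mk_Iio_lt β ?_).trans_eq (Cardinal.mk_ord_toType _)
      rw [Cardinal.mk_ord_toType, Ordinal.type_toType]
    rw [← Set.Iio_insert]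
    exact h2.insert β
  have hunc : ℵ₀ < #Ω := by
    rw [Cardinal.mk_ord_toType]
    exact Cardinal.aleph0_lt_aleph_one
  have hne : Nonempty Ω := by
    rw [← Cardinal.mk_ne_zero_iff]
    exact (Cardinal.aleph0_pos.trans hunc).ne'
  exact ⟨Ω × ℕ, Sy Ω, .psi, PP Ω, inferInstance, inferInstance, fun p =>
    ⟨(pccc h1).cardinalsPreserved p, phi_forced h1 hunc p⟩⟩

end Pool.Agent.KS6_46.RF
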