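import Pool.Agent.KS6_46.RF.Basic
import Pool.Agent.KS6_46.RF.Sent
import Pool.Graph.R_pool_sql_team_seeded_3997aac3.Q212.RF.Basic

/-!
# The topological group
-/

set_option autoImplicit false

namespace Pool.Agent.KS6_46.RF

open Classical Topology Pool.Agent.Q212.RF

/-- factorization through a homomorphism -/
theorem factor_of {G K0 : Type} [Group G] [TopologicalSpace G] [Group K0] [TopologicalSpace K0]
    [IsTopologicalGroup K0] [T2Space K0] [SecondCountableTopology K0] (h : G →* K0)
    (hh : Continuous h) (f : G → ℝ)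
    (hf : ∀ ε : ℝ, 0 < ε → ∀ x, ∃ W : Set K0, IsOpen W ∧ h x ∈ W ∧ ∀ z, h z ∈ W → |f z - f x| < ε) :
    ∃ (K : Type) (_ : Group K) (_ : TopologicalSpace K)
    (_ : IsTopologicalGroup K) (_ : T2Space K) (_ : SecondCountableTopology K)
    (h : G →* K) (g : K → ℝ), Continuous h ∧ Continuous g ∧ f = g ∘ h := by
  let g : h.range → ℝ := fun u => f u.2.choose
  have hg : ∀ u : h.range, h u.2.choose = u.1 := fun u => u.2.choose_spec
  refine ⟨h.range, inferInstance, inferInstance, inferInstance, inferInstance,
    Topology.IsInducing.subtypeVal.secondCountableTopology, h.rangeRestrict, g, ?_, ?_, ?_⟩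
  · exact Continuous.subtype_mk hh _
  · rw [Metric.continuous_iff']
    intro u ε hε
    obtain ⟨W, hW, h1, h2⟩ := hf ε hε u.2.choose
    rw [hg] at h1
    have h3 : Subtype.val ⁻¹' W ∈ 𝓝 u := (hW.preimage continuous_subtype_val).mem_nhds h1
    filter_upwards [h3] with u' hu'
    rw [Real.dist_eq]
    apply h2
    rw [hg]
    exact hu'
  · funext x
    show f x = f (h.rangeRestrict x).2.choose
    have h1 := hg (h.rangeRestrict x)
    have h2 : h (h.rangeRestrict x).2.choose = h x := h1
    by_contra hne
    obtain ⟨W, hW, h3, h4⟩ := hf (|f x - f (h.rangeRestrict x).2.choose|)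
      (abs_pos.2 (sub_ne_zero.2 hne)) (h.rangeRestrict x).2.choose
    rw [h2] at h3
    exact absurd (h4 x h3) (lt_irrefl _)

/-- the countable discrete group -/
def DA : Type := Multiplicative (BB × ZMod 2)

noncomputable instance : CommGroup DA := inferInstanceAs (CommGroup (Multiplicative (BB × ZMod 2)))

instance : Countable DA := inferInstanceAs (Countable (BB × ZMod 2))

instance : Infinite DA := by
  have h : Infinite (BB × ZMod 2) := inferInstance
  exact h

instance : TopologicalSpace DA := ⊥

instance : DiscreteTopology DA := ⟨rfl⟩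

section

variable {Y S : Type} (v : S → Y → BB)

/-- the coordinates of an element -/
noncomputable def el (x : Gr Y) : S → DA := fun g => Multiplicative.ofAdd (ev (v g) x, par x)

theorem el_add (x y : Gr Y) : el v (x + y) = el v x * el v y := by
  funext g
  show Multiplicative.ofAdd (ev (v g) (x + y), par (x + y)) =
    Multiplicative.ofAdd (ev (v g) x, par x) * Multiplicative.ofAdd (ev (v g) y, par y)
  rw [← ofAdd_add, Prod.mk_add_mk, map_add, map_add]

theorem el_zero : el v 0 = 1 := by
  funext g
  show Multiplicative.ofAdd (ev (v g) 0, par 0) = 1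
  rw [map_zero, map_zero]
  rfl

theorem el_eq_one {x : Gr Y} {g : S} : el v x g = 1 ↔ InKer v g x := by
  have h1 : el v x g = 1 ↔ (ev (v g) x, par x) = (0, 0) := Iff.rfl
  rw [h1, Prod.mk.injEq, InKer, ev_eq_sum]
  have h : par x = (x.support.card : ZMod 2) := by
    rw [par, Finsupp.linearCombination_apply, Finsupp.sum, Finset.cast_card]
    refine Finset.sum_congr rfl fun t ht => ?_
    rw [z2_ne.1 (Finsupp.mem_support_iff.1 ht), one_smul]
  rw [h, ZMod.natCast_eq_zero_iff_even, and_comm]

theorem el_eq {x y : Gr Y} {g : S} : el v x g = el v y g ↔ InKer v g (x + y) := by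
  rw [← el_eq_one, el_add, Pi.mul_apply]
  have h : el v y g * el v y g = 1 := by
    rw [← Pi.mul_apply, ← el_add, g_add_self, el_zero]
    rfl
  constructor
  · intro h1
    rw [h1, h]
  · intro h1
    have h2 : el v x g = (el v y g)⁻¹ := eq_inv_of_mul_eq_one_left h1
    rw [h2, inv_eq_of_mul_eq_one_left h]

/-- the group -/
noncomputable def GG : Subgroup (S → DA) where
  carrier := Set.range (el v)
  mul_mem' := by
    rintro _ _ ⟨x, rfl⟩ ⟨y, rfl⟩
    exact ⟨x + y, el_add v x y⟩
  one_mem' := ⟨0, el_zero v⟩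
  inv_mem' := by
    rintro _ ⟨x, rfl⟩
    refine ⟨x, ?_⟩
    apply eq_inv_of_mul_eq_one_left
    rw [← el_add, g_add_self, el_zero]

/-- the element given by a finite set -/
noncomputable def mkG (x : Gr Y) : GG v := ⟨el v x, x, rfl⟩

theorem mkG_surj (z : GG v) : ∃ x, mkG v x = z := by
  obtain ⟨x, hx⟩ := z.2
  exact ⟨x, Subtype.ext hx⟩

theorem mkG_add (x y : Gr Y) : mkG v (x + y) = mkG v x * mkG v y := Subtype.ext (el_add v x y)

theorem mkG_sq (x : Gr Y) : mkG v x * mkG v x = 1 := by
  rw [← mkG_add, g_add_self]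
  exact Subtype.ext (el_zero v)

variable {v}

/-- a continuous function only depends on countably many coordinates, in a strong sense -/
theorem exists_seq (hR : Refine v) (f : GG v → ℝ) (hf : Continuous f) :
    ∃ σ : ℕ → ℕ → S, ∀ ε : ℝ, 0 < ε → ∀ x : GG v, ∃ k m, ∀ z : GG v,
      z.1 (σ k m) = x.1 (σ k m) → |f z - f x| < ε := by
  let F : Gr Y → ℝ := fun x => f (mkG v x)
  have hU : ∀ (δ : ℝ), 0 < δ → ∀ x, ∃ Φ : Finset S, ∀ z, (∀ g ∈ Φ, InKer v g (z + x)) →
      |F z - F x| < δ := by
    intro δ hδ x
    have h1 : IsOpen (f ⁻¹' Metric.ball (f (mkG v x)) δ) := Metric.isOpen_ball.preimage hf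
    obtain ⟨O, hO, h2⟩ := isOpen_induced_iff.1 h1
    have h3 : el v x ∈ O := by
      have h4 : mkG v x ∈ f ⁻¹' Metric.ball (f (mkG v x)) δ := Metric.mem_ball_self hδ
      rw [← h2] at h4
      exact h4
    obtain ⟨Φ, u, hu, hsub⟩ := isOpen_pi_iff.1 hO _ h3
    refine ⟨Φ, fun z hz => ?_⟩
    have h5 : el v z ∈ O := by
      apply hsub
      intro g hg
      rw [(el_eq v).2 (hz g hg)]
      exact (hu g hg).2
    have h6 : mkG v z ∈ f ⁻¹' Metric.ball (f (mkG v x)) δ := by
      rw [← h2]
      exact h5
    exact h6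
  have hk : ∀ k : ℕ, ∃ σ : ℕ → S, ∀ x, ∃ m, ∀ y, InKer v (σ m) y →
      |F (x + y) - F x| < 2 / (k + 1) := by
    intro k
    have hk0 : (0 : ℝ) < k + 1 := by positivity
    obtain ⟨σ, hσ⟩ := hR (fun x n => Equiv.intEquivNat ⌊(k + 1) * F x⌋ = n)
      (fun x Φ => ∀ z, (∀ g ∈ Φ, InKer v g (z + x)) → |F z - F x| < 1 / (k + 1))
      ⟨fun x => ⟨_, rfl⟩, hU _ (by positivity)⟩
    refine ⟨σ, fun x => ?_⟩
    obtain ⟨m, hm⟩ := hσ x
    refine ⟨m, fun y hy => ?_⟩
    obtain ⟨x', n, Φ, h1, h2, h3, h4⟩ := hm y hy
    have h5 := h3 (x + y) h4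
    have h6 : ⌊(k + 1) * F x⌋ = ⌊(k + 1) * F x'⌋ := Equiv.intEquivNat.injective (h1.trans h2.symm)
    have h7 : |(k + 1) * F x - (k + 1) * F x'| < 1 := Int.abs_sub_lt_one_of_floor_eq_floor h6
    have h8 : |F x - F x'| < 1 / (k + 1) := by
      rw [← mul_sub, abs_mul, abs_of_pos hk0] at h7
      rw [lt_div_iff₀ hk0, mul_comm]
      exact h7
    calc |F (x + y) - F x| = |(F (x + y) - F x') - (F x - F x')| := by ring_nf
      _ ≤ |F (x + y) - F x'| + |F x - F x'| := abs_sub _ _
      _ < 1 / (k + 1) + 1 / (k + 1) := add_lt_add h5 h8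
      _ = 2 / (k + 1) := by ring
  choose σ hσ using hk
  refine ⟨σ, fun ε hε x => ?_⟩
  obtain ⟨k, hk⟩ := exists_nat_gt (2 / ε)
  obtain ⟨x0, rfl⟩ := mkG_surj v x
  obtain ⟨m, hm⟩ := hσ k x0
  refine ⟨k, m, fun z hz => ?_⟩
  obtain ⟨z0, rfl⟩ := mkG_surj v z
  have h1 : InKer v (σ k m) (z0 + x0) := (el_eq v).1 hz
  have h2 := hm (z0 + x0) h1
  have h3 : x0 + (z0 + x0) = z0 := by
    rw [add_left_comm, g_add_self, add_zero]
  rw [h3] at h2
  refine h2.trans ?_
  have hk0 : (0 : ℝ) < k + 1 := by positivity
  rw [div_lt_iff₀ hk0]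
  rw [div_lt_iff₀ hε] at hk
  nlinarith

/-- the group times a countable discrete group is ℝ-factorizable -/
theorem rfactorizable (hR : Refine v) : RFactorizable (GG v × DA) := by
  intro f hf
  have h1 : ∀ b : DA, ∃ σ : ℕ → ℕ → S, ∀ ε : ℝ, 0 < ε → ∀ x : GG v, ∃ k m, ∀ z : GG v,
      z.1 (σ k m) = x.1 (σ k m) → |f (z, b) - f (x, b)| < ε := fun b =>
    exists_seq hR (fun x => f (x, b)) (hf.comp (continuous_id.prodMk continuous_const))
  choose σ hσ using h1
  let h : GG v × DA →* (DA × ℕ × ℕ → DA) × DA :=
    { toFun := fun u => (fun i => u.1.1 (σ i.1 i.2.1 i.2.2), u.2)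
      map_one' := rfl
      map_mul' := fun _ _ => rfl }
  have hh : Continuous h := by
    refine Continuous.prodMk (continuous_pi fun i => ?_) continuous_snd
    exact (continuous_apply (σ i.1 i.2.1 i.2.2)).comp
      (continuous_subtype_val.comp continuous_fst)
  refine factor_of h hh f fun ε hε u => ?_
  obtain ⟨x, b⟩ := u
  obtain ⟨k, m, hkm⟩ := hσ b ε hε x
  refine ⟨{w | w.1 (b, k, m) = x.1 (σ b k m)} ∩ {w | w.2 = b}, ?_, ⟨rfl, rfl⟩, ?_⟩
  · have hc : Continuous fun w : (DA × ℕ × ℕ → DA) × DA => w.1 (b, k, m) :=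
      (continuous_apply (b, k, m)).comp continuous_fst
    refine IsOpen.inter ?_ ?_
    · exact (isOpen_discrete {x.1 (σ b k m)}).preimage hc
    · exact (isOpen_discrete {b}).preimage continuous_snd
  · rintro ⟨z, b'⟩ ⟨h1, h2⟩
    have h3 : b' = b := h2
    subst h3
    exact hkm z h1

end

/-! ### The homeomorphism -/

section

variable {G : Type} [CommGroup G] [TopologicalSpace G] [IsTopologicalGroup G]

/-- A group times a countable infinite discrete space is homeomorphic to its product with each
discrete space which indexes a partition into cosets of kernels of continuous homomorphisms to a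
countable discrete group. -/
theorem exists_homeo {D : Type} [TopologicalSpace D] [DiscreteTopology D] (π : D → G →* DA)
    (hπ : ∀ i, Continuous (π i)) (a : D → G) (hex : ∀ x, ∃ i, π i (x * a i) = 1)
    (huniq : ∀ x i j, π i (x * a i) = 1 → π j (x * a j) = 1 → i = j) :
    Nonempty (G × DA ≃ₜ (G × DA) × D) := by
  choose idx hidx using hex
  have hτ : ∀ i, Nonempty ((π i).range × DA ≃ DA) := by
    intro i
    have : Countable (π i).range := inferInstance
    have h1 : Infinite ((π i).range × DA) := inferInstance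
    exact nonempty_equiv_of_countable
  let τ : (i : D) → ((π i).range × DA ≃ DA) := fun i => (hτ i).some
  let s : (i : D) → (π i).range → G := fun i r => r.2.choose
  have hs : ∀ i r, π i (s i r) = r.1 := fun i r => r.2.choose_spec
  have hcs : ∀ i, Continuous (s i) := fun i => continuous_of_discreteTopology
  let ρ : (i : D) → G → (π i).range := fun i x => ⟨π i x, x, rfl⟩
  have hρ : ∀ i, Continuous (ρ i) := fun i => Continuous.subtype_mk (hπ i) _
  let φ : D → G × DA → G × DA := fun i u =>
    (u.1 * (s i (ρ i u.1))⁻¹ * (a i)⁻¹, τ i (ρ i u.1, u.2))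
  let χ : D → G × DA → G × DA := fun i w =>
    (w.1 * a i * s i ((τ i).symm w.2).1, ((τ i).symm w.2).2)
  have hφ : ∀ i, Continuous (φ i) := by
    intro i
    refine Continuous.prodMk ?_ ?_
    · exact (continuous_fst.mul ((hcs i).comp ((hρ i).comp continuous_fst)).inv).mul
        continuous_const
    · exact continuous_of_discreteTopology.comp
        (((hρ i).comp continuous_fst).prodMk continuous_snd)
  have hχ : ∀ i, Continuous (χ i) := by
    intro i
    refine Continuous.prodMk ?_ ?_
    · refine (continuous_fst.mul continuous_const).mul ?_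
      exact (continuous_of_discreteTopology (f := fun c => s i ((τ i).symm c).1)).comp
        continuous_snd
    · exact (continuous_of_discreteTopology (f := fun c => ((τ i).symm c).2)).comp
        continuous_snd
  have h1 : ∀ i u, χ i (φ i u) = u := by
    rintro i ⟨x, b⟩
    simp only [φ, χ, Equiv.symm_apply_apply]
    refine Prod.ext ?_ rfl
    simp only
    rw [inv_mul_cancel_right, inv_mul_cancel_right]
  have h2 : ∀ i u, π i ((φ i u).1 * a i) = 1 := by
    rintro i ⟨x, b⟩
    simp only [φ]
    rw [inv_mul_cancel_right, map_mul, map_inv, hs]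
    exact mul_inv_cancel _
  have h3 : ∀ i w, π i (w.1 * a i) = 1 → φ i (χ i w) = w := by
    rintro i ⟨x, c⟩ h
    have h4 : ρ i (x * a i * s i ((τ i).symm c).1) = ((τ i).symm c).1 := by
      refine Subtype.ext ?_
      show π i (x * a i * s i ((τ i).symm c).1) = _
      have h5 : π i (x * a i) = 1 := h
      rw [map_mul, h5, one_mul, hs]
    simp only [φ, χ]
    rw [h4]
    refine Prod.ext ?_ ?_
    · simp only
      rw [mul_inv_cancel_right, mul_inv_cancel_right]
    · simp
  have hidxc : Continuous idx := by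
    refine continuous_discrete_rng.2 fun i => ?_
    have h4 : idx ⁻¹' {i} = {x | π i (x * a i) = 1} := by
      ext x
      constructor
      · intro h
        have h5 : idx x = i := h
        rw [← h5]
        exact hidx x
      · intro h
        exact huniq x _ _ (hidx x) h
    rw [h4]
    exact (isOpen_discrete {(1 : DA)}).preimage ((hπ i).comp (continuous_id.mul continuous_const))
  refine ⟨Homeomorph.symm
    { toFun := fun u => φ u.2 u.1
      invFun := fun w => (χ (idx w.1) w, idx w.1)
      left_inv := ?_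
      right_inv := ?_
      continuous_toFun := ?_
      continuous_invFun := ?_ }⟩
  · rintro ⟨u, i⟩
    have h4 : idx (φ i u).1 = i := huniq _ _ _ (hidx _) (h2 i u)
    simp only
    rw [h4, h1]
  · intro w
    exact h3 _ w (hidx w.1)
  · exact continuous_prod_of_discrete_right.2 fun i => hφ i
  · have h4 : Continuous fun u : (G × DA) × D => χ u.2 u.1 :=
      continuous_prod_of_discrete_right.2 fun i => hχ i
    have h5 : Continuous fun w : G × DA => idx w.1 := hidxc.comp continuous_fst
    exact (h4.comp (continuous_id.prodMk h5)).prodMk h5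

end

/-- The statement implies that there are an ℝ-factorizable group, a topological group and an
uncountable discrete space as in the question. -/
theorem example_of_phi {Y S : Type} {ψ : Y → S} (h : PhiFor Y S ψ) :
    ∃ (G : Type) (_ : Group G) (_ : TopologicalSpace G) (_ : IsTopologicalGroup G) (_ : T2Space G)
      (H : Type) (_ : Group H) (_ : TopologicalSpace H) (_ : IsTopologicalGroup H) (_ : T2Space H)
      (D : Type) (_ : TopologicalSpace D) (_ : DiscreteTopology D),
      RFactorizable G ∧ Uncountable D ∧ Nonempty (G ≃ₜ H × D) := by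
  obtain ⟨⟨α0⟩, hY, v, hcov, hdisj, hR⟩ := h
  have hunc : Uncountable Y := by
    refine ⟨fun hc => hY ?_⟩
    have : Nonempty Y := ⟨α0⟩
    exact exists_surjective_nat Y
  let a : Bool × Y → Gr Y := fun i => bs i.2 + if i.1 then bs α0 else 0
  have hpar : ∀ {g : S} {y : Gr Y}, InKer v g y → par y = 0 := by
    intro g y hy
    have h1 := (el_eq_one v).2 hy
    have h2 : (ev (v g) y, par y) = (0, 0) := h1
    exact (Prod.mk.inj h2).2
  have hodd : ∀ x : Gr Y, par x = 1 → ¬ Even x.support.card := by
    intro x hx he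
    have h1 : par x = (x.support.card : ZMod 2) := by
      rw [par, Finsupp.linearCombination_apply, Finsupp.sum, Finset.cast_card]
      refine Finset.sum_congr rfl fun t ht => ?_
      rw [z2_ne.1 (Finsupp.mem_support_iff.1 ht), one_smul]
    rw [(ZMod.natCast_eq_zero_iff_even).2 he, hx] at h1
    exact one_ne_zero h1
  have hpa : ∀ i, par (a i) = 1 + if i.1 then 1 else 0 := by
    rintro ⟨i, α⟩
    cases i <;> simp [a]
  have hbool : ∀ (c : ZMod 2) (i j : Bool), c + (1 + if i then 1 else 0) = 0 →
      c + (1 + if j then 1 else 0) = 0 → i = j := by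
    decide
  let _ : TopologicalSpace (Bool × Y) := ⊥
  have _ : DiscreteTopology (Bool × Y) := ⟨rfl⟩
  let π : Bool × Y → GG v →* DA := fun i =>
    { toFun := fun x => x.1 (ψ i.2)
      map_one' := rfl
      map_mul' := fun _ _ => rfl }
  have hπ : ∀ i, Continuous (π i) := fun i =>
    (continuous_apply (ψ i.2)).comp continuous_subtype_val
  have hkey : ∀ x i, π i (mkG v x * mkG v (a i)) = 1 ↔ InKer v (ψ i.2) (x + a i) := by
    intro x i
    rw [← mkG_add]
    exact el_eq_one v
  obtain ⟨e⟩ := exists_homeo π hπ (fun i => mkG v (a i)) (by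
    intro z
    obtain ⟨x, rfl⟩ := mkG_surj v z
    rcases z2 (par x) with hx | hx
    · obtain ⟨α, hα⟩ := hcov (x + bs α0) (hodd _ (by rw [map_add, hx, par_bs, zero_add]))
      refine ⟨(true, α), (hkey _ _).2 ?_⟩
      have h1 : x + a (true, α) = x + bs α0 + Finsupp.single α 1 := by
        simp only [a, if_true]
        rw [add_assoc, add_comm (bs α0)]
      rw [h1]
      exact hα
    · obtain ⟨α, hα⟩ := hcov x (hodd _ hx)
      refine ⟨(false, α), (hkey _ _).2 ?_⟩
      have h1 : x + a (false, α) = x + Finsupp.single α 1 := by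
        simp [a]
      rw [h1]
      exact hα) (by
    intro z i j hi hj
    obtain ⟨x, rfl⟩ := mkG_surj v z
    have hi := (hkey x i).1 hi
    have hj := (hkey x j).1 hj
    have h1 := hpar hi
    have h2 := hpar hj
    rw [map_add, hpa] at h1 h2
    obtain ⟨i, α⟩ := i
    obtain ⟨j, β⟩ := j
    have hij : i = j := hbool _ _ _ h1 h2
    subst hij
    have h3 : α = β := by
      refine hdisj (x + if i then bs α0 else 0) α β ⟨?_, ?_⟩
      · rw [add_assoc, add_comm _ (Finsupp.single α 1)]
        exact hi
      · rw [add_assoc, add_comm _ (Finsupp.single β 1)]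
        exact hj
    rw [h3])
  refine ⟨GG v × DA, inferInstance, inferInstance, inferInstance, inferInstance, GG v × DA,
    inferInstance, inferInstance, inferInstance, inferInstance, Bool × Y, inferInstance,
    inferInstance, rfactorizable hR, ?_, ⟨e⟩⟩
  exact (Prod.mk_right_injective true).uncountable

end Pool.Agent.KS6_46.RF
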